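import Mathlib
import Pool.Agent.Run7.h407.LL.Defs

/-!
Definitions for the Navier-Stokes equations projected on spaces with scalar constraints,
axisymmetric velocity fields.
-/

namespace Pool.Agent.Run7.h980.AX

open Set Filter Topology MeasureTheory Run7.h407.LL
open scoped ContDiff

/-- The rotation by the angle `θ` about the third coordinate axis. -/
noncomputable def rotation (θ : ℝ) (x : E3) : E3 :=
  ![Real.cos θ * x 0 - Real.sin θ * x 1, Real.sin θ * x 0 + Real.cos θ * x 1, x 2]

/-- The vector field `u` commutes with all rotations about the third axis, that is, its cylindrical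
components do not depend on the angle (the swirl component is allowed). -/
def IsAxisymmetric (u : E3 → E3) : Prop := ∀ θ x, u (rotation θ x) = rotation θ (u x)

/-- All the fields are axisymmetric. -/
def AllAxisymmetric (p : ℕ → E3 → E3) (g : ℕ → Fin 3 → E3 → E3) : Prop :=
  (∀ n, IsAxisymmetric (p n)) ∧ ∀ n i, IsAxisymmetric (g n i)

/-- The point `z` is on the third axis. -/
def OnAxis (z : E3) : Prop := z 0 = 0 ∧ z 1 = 0

/-- The distance from the third axis, in the maximum norm. -/
noncomputable def axisDist (x : E3) : ℝ := max |x 0| |x 1|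

/-- The circulation `Γ = r u_θ = x₀ v₁ - x₁ v₀` of the vector `v` at the point `x`. -/
def circulation (v x : E3) : ℝ := x 0 * v 1 - x 1 * v 0

/-- The modes `p n` and the constraint fields `g n i` form a family in the sense of `IsFamily`, they
are all axisymmetric, and also the axisymmetric square integrable divergence-free fields which
satisfy the constraints form an admissible space. -/
structure IsAxiFamily (P : ℕ → E3 → E3) (G : ℕ → Fin 3 → E3 → E3) (k : ℕ) (z : E3) (U : E3 → E3)
    (p : ℕ → E3 → E3) (g : ℕ → Fin 3 → E3 → E3) : Prop where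
  family : IsFamily P G k z U p g
  axisymmetric : AllAxisymmetric p g
  largest : IsSpace p g {w | IsSolenoidal w ∧ Constrained g w ∧ IsAxisymmetric w}

/-- Blow-up at `z` from the datum `v` before the time `T₀`, at viscosity `ν`: there are `T ≤ T₀`
and a field `u` on `[0,T)` with `u(0) = v`, axisymmetric at all times and supported in a fixed
ball, with `|u(t,x)| ≤ C |x - z|^(3-4q)` and `|Γ(t,x)| ≤ C r^(-4(q-1))`, for which the `L³` norm,
the supremum and the supremum of the circulation `Γ` tend to infinity as `t → T`, and which solves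
the equations projected on `W` for all admissible spaces `W` at once. For each of these spaces
every solution with the datum `v` is a restriction of `u`, in particular none exists beyond `T`;
and every Leray-Hopf solution with the datum `v` coincides with `u` on `[0,T)`. -/
def BlowsUpAxi (q : ℝ) (z : E3) (p : ℕ → E3 → E3) (g : ℕ → Fin 3 → E3 → E3) (ν : ℝ)
    (v : E3 → E3) (T₀ : ℝ) : Prop :=
  ∃ T, 0 < T ∧ T ≤ T₀ ∧ ∃ u : ℝ → E3 → E3, u 0 = v ∧
    (∀ t ∈ Ico 0 T, IsAxisymmetric (u t)) ∧
    (∃ ρ, ∀ t ∈ Ico 0 T, InBall z ρ (u t)) ∧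
    (∃ C, ∀ t ∈ Ico 0 T, ∀ x, mag (u t x) * dst x z ^ (4 * q - 3) ≤ C ∧
      |circulation (u t x) x| * axisDist x ^ (4 * (q - 1)) ≤ C) ∧
    Tendsto (fun t => total fun x => mag (u t x) ^ 3) (𝓝[<] T) atTop ∧
    (∀ M, ∀ᶠ t in 𝓝[<] T, ∃ x, M < mag (u t x)) ∧
    (∀ M, ∀ᶠ t in 𝓝[<] T, ∃ x, M < |circulation (u t x) x|) ∧
    ∀ W : Set (E3 → E3), IsSpace p g W → IsProjected W ν T u ∧
      (∀ (T' : ℝ) (w : ℝ → E3 → E3), IsProjected W ν T' w → w 0 = v →
        T' ≤ T ∧ ∀ t ∈ Ico 0 T', w t = u t) ∧
      ∀ (T' : ℝ) (w : ℝ → E3 → E3), IsLerayHopf W ν T' w → AEEq (w 0) v →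
        ∀ t ∈ Ico 0 T', t < T → AEEq (w t) (u t)

end Pool.Agent.Run7.h980.AX
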