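import Mathlib
import Pool.Agent.Run7.h407.X.Axi
import Pool.Agent.Run7.h407.D.Pos2

/-!
Geometry of axisymmetric fields: infinitesimal rotations, rings, cut-off functions.
-/

namespace Pool.Agent.Run7.h980.AX

open Set Filter Topology MeasureTheory
open scoped ContDiff
open Pool.Agent.Run7.h407 Pool.Agent.Run7.h407.G Pool.Agent.Run7.h407.G.X

theorem rot_deriv (x : V) : HasDerivAt (fun θ => rot θ x) (sw (fun _ => 1) x) 0 := by
  rw [hasDerivAt_pi]
  intro i
  fin_cases i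
  · show HasDerivAt (fun θ => Real.cos θ * x 0 - Real.sin θ * x 1) (-(x 1) * 1) 0
    have h := ((Real.hasDerivAt_cos 0).mul_const (x 0)).sub ((Real.hasDerivAt_sin 0).mul_const (x 1))
    refine h.congr_deriv ?_
    simp
  · show HasDerivAt (fun θ => Real.sin θ * x 0 + Real.cos θ * x 1) (x 0 * 1) 0
    have h := ((Real.hasDerivAt_sin 0).mul_const (x 0)).add ((Real.hasDerivAt_cos 0).mul_const (x 1))
    refine h.congr_deriv ?_
    simp
  · show HasDerivAt (fun _ => x 2) 0 0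
    exact hasDerivAt_const _ _

theorem rot_id (x : V) : rot 0 x = x := by
  apply ext3
  · rw [rot_zero']
    simp
  · rw [rot_one']
    simp
  · rfl

theorem fderiv_eq_sum (g : V → ℝ) (x v : V) : fderiv ℝ g x v
    = v 0 * pd 0 g x + v 1 * pd 1 g x + v 2 * pd 2 g x := by
  have h7 : v = ∑ j, v j • (Pi.single j 1 : V) := by
    funext i
    simp [Finset.sum_apply, Pi.single_apply]
  conv_lhs => rw [h7]
  rw [map_sum, Fin.sum_univ_three, map_smul, map_smul, map_smul]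
  rfl

theorem comp_rot_deriv {g : V → ℝ} (hg : Sm g) (x : V) :
    HasDerivAt (fun θ => g (rot θ x)) (-(x 1) * pd 0 g x + x 0 * pd 1 g x) 0 := by
  have h1 : HasFDerivAt g (fderiv ℝ g (rot 0 x)) (rot 0 x) := (hg.diff _).hasFDerivAt
  have h2 := h1.comp_hasDerivAt (0 : ℝ) (rot_deriv x)
  refine h2.congr_deriv ?_
  rw [rot_id, fderiv_eq_sum, sw_zero, sw_one, sw_two]
  ring

theorem AxS_ax {f : V → ℝ} (hs : Sm f) (h : AxS f) : Ax f := by
  intro y
  have h1 := comp_rot_deriv hs y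
  have h2 : (fun θ => f (rot θ y)) = fun _ => f y := funext fun θ => h θ y
  rw [h2] at h1
  have := h1.unique (hasDerivAt_const (0 : ℝ) (f y))
  linarith

/-- The infinitesimal form of the axisymmetry. -/
theorem Axi_inf {u : V → V} (hu : Axi u) (hs : ∀ i, Sm (fun y => u y i)) (x : V) :
    -(x 1) * pd 0 (fun y => u y 0) x + x 0 * pd 1 (fun y => u y 0) x = -u x 1 ∧
    -(x 1) * pd 0 (fun y => u y 1) x + x 0 * pd 1 (fun y => u y 1) x = u x 0 ∧
    -(x 1) * pd 0 (fun y => u y 2) x + x 0 * pd 1 (fun y => u y 2) x = 0 := by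
  have hr := hasDerivAt_pi.1 (rot_deriv (u x))
  have e : ∀ i, (fun θ => (fun y => u y i) (rot θ x)) = fun θ => rot θ (u x) i := by
    intro i
    funext θ
    show u (rot θ x) i = _
    rw [hu]
  refine ⟨?_, ?_, ?_⟩
  · have h1 := comp_rot_deriv (hs 0) x
    rw [e] at h1
    have := h1.unique (hr 0)
    rw [this, sw_zero]
    ring
  · have h1 := comp_rot_deriv (hs 1) x
    rw [e] at h1
    have := h1.unique (hr 1)
    rw [this, sw_one]
    ring
  · have h1 := comp_rot_deriv (hs 2) x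
    rw [e] at h1
    have := h1.unique (hr 2)
    rw [this, sw_two]

theorem Axi_dot {u v : V → V} (hu : Axi u) (hv : Axi v) : AxS (fun x => ∑ i, u x i * v x i) := by
  intro θ x
  show ∑ i, u (rot θ x) i * v (rot θ x) i = ∑ i, u x i * v x i
  rw [hu, hv, Fin.sum_univ_three, Fin.sum_univ_three, rot_zero', rot_zero', rot_one', rot_one',
    rot_two', rot_two']
  have h := Real.sin_sq_add_cos_sq θ
  linear_combination (u x 0 * v x 0 + u x 1 * v x 1) * h

theorem exists_rot (x : V) : ∃ θ, x = rot θ ![√(x 0 ^ 2 + x 1 ^ 2), 0, x 2] := by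
  set w : ℂ := ⟨x 0, x 1⟩ with hw
  have h1 := Complex.norm_mul_cos_arg w
  have h2 := Complex.norm_mul_sin_arg w
  have h3 : ‖w‖ = √(x 0 ^ 2 + x 1 ^ 2) := by
    rw [Complex.norm_def, Complex.normSq_apply]
    congr 1
    simp [hw]
    ring
  rw [h3] at h1 h2
  refine ⟨Complex.arg w, ?_⟩
  apply ext3
  · rw [rot_zero']
    show x 0 = Real.cos w.arg * √(x 0 ^ 2 + x 1 ^ 2) - Real.sin w.arg * 0
    have : w.re = x 0 := rfl
    linarith
  · rw [rot_one']
    show x 1 = Real.sin w.arg * √(x 0 ^ 2 + x 1 ^ 2) + Real.cos w.arg * 0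
    have : w.im = x 1 := rfl
    linarith
  · rfl

theorem AxS_polar {f : V → ℝ} (h : AxS f) (x : V) : f x = f ![√(x 0 ^ 2 + x 1 ^ 2), 0, x 2] := by
  obtain ⟨θ, hθ⟩ := exists_rot x
  conv_lhs => rw [hθ]
  rw [h]

/-- A neighbourhood of a ring. -/
def Rg (ρ ε c d : ℝ) : Set V := {x | |x 0 ^ 2 + x 1 ^ 2 - ρ| < ε ∧ c < x 2 ∧ x 2 < d}

theorem exists_ring {f : V → ℝ} (hc : Continuous f) (h : AxS f) {O : Set ℝ} (hO : IsOpen O) {y : V}
    (hy : f y ∈ O) : ∃ ε > 0, ∀ x ∈ Rg (y 0 ^ 2 + y 1 ^ 2) ε (y 2 - ε) (y 2 + ε), f x ∈ O := by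
  have hv : Continuous (fun z : ℝ × ℝ => (![√z.1, 0, z.2] : V)) := by
    rw [continuous_pi_iff]
    intro i
    fin_cases i
    · exact continuous_fst.sqrt
    · exact continuous_const
    · exact continuous_snd
  have hg : Continuous (fun z : ℝ × ℝ => f ![√z.1, 0, z.2]) := hc.comp hv
  have h1 : f ![√(y 0 ^ 2 + y 1 ^ 2), 0, y 2] ∈ O := by
    rw [← AxS_polar h]
    exact hy
  have h2 : (fun z : ℝ × ℝ => f ![√z.1, 0, z.2]) ⁻¹' O ∈ 𝓝 ((y 0 ^ 2 + y 1 ^ 2, y 2) : ℝ × ℝ) :=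
    (hO.preimage hg).mem_nhds h1
  obtain ⟨ε, hε, hb⟩ := Metric.mem_nhds_iff.1 h2
  refine ⟨ε, hε, fun x hx => ?_⟩
  rw [AxS_polar h]
  have h3 : ((x 0 ^ 2 + x 1 ^ 2, x 2) : ℝ × ℝ) ∈ Metric.ball ((y 0 ^ 2 + y 1 ^ 2, y 2) : ℝ × ℝ) ε := by
    rw [Metric.mem_ball, Prod.dist_eq]
    apply max_lt
    · exact hx.1
    · show |x 2 - y 2| < ε
      rw [abs_lt]
      constructor <;> linarith [hx.2.1, hx.2.2]
  exact hb h3

theorem exists_bmp {ρ ε c d : ℝ} (hρ : 0 ≤ ρ) (hε : 0 < ε) (hcd : c < d) : ∃ χ : V → ℝ, Sm χ ∧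
    HasCompactSupport χ ∧ AxS χ ∧ tsupport χ ⊆ Rg ρ ε c d ∧ ∃ y, ∀ᶠ x in 𝓝 y, χ x = 1 := by
  let b1 : ContDiffBump ρ := ⟨ε / 4, ε / 2, by linarith, by linarith⟩
  let b2 : ContDiffBump ((c + d) / 2) := ⟨(d - c) / 8, (d - c) / 4, by linarith, by linarith⟩
  set χ : V → ℝ := fun x => b1 (x 0 ^ 2 + x 1 ^ 2) * b2 (x 2) with hχ
  have s1 : Sm (fun x : V => x 0 ^ 2 + x 1 ^ 2) := ((coord_sm 0).pow 2).add ((coord_sm 1).pow 2)
  have hs : Sm χ := (b1.contDiff.comp s1).mul (b2.contDiff.comp (coord_sm 2))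
  set K : Set V := {x | |x 0 ^ 2 + x 1 ^ 2 - ρ| ≤ ε / 2 ∧ |x 2 - (c + d) / 2| ≤ (d - c) / 4}
    with hK
  have hKc : IsClosed K := by
    have c1 : Continuous (fun x : V => |x 0 ^ 2 + x 1 ^ 2 - ρ|) :=
      (s1.continuous.sub continuous_const).abs
    have c2 : Continuous (fun x : V => |x 2 - (c + d) / 2|) :=
      ((continuous_apply 2).sub continuous_const).abs
    exact (isClosed_le c1 continuous_const).inter (isClosed_le c2 continuous_const)
  have hsub : Function.support χ ⊆ K := by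
    intro x hx
    have h1 : b1 (x 0 ^ 2 + x 1 ^ 2) ≠ 0 := left_ne_zero_of_mul hx
    have h2 : b2 (x 2) ≠ 0 := right_ne_zero_of_mul hx
    constructor
    · by_contra hcon
      push Not at hcon
      exact h1 (b1.zero_of_le_dist (le_of_lt hcon))
    · by_contra hcon
      push Not at hcon
      exact h2 (b2.zero_of_le_dist (le_of_lt hcon))
  have hts : tsupport χ ⊆ K := closure_minimal hsub hKc
  have hKb : K ⊆ Metric.closedBall 0 (ρ + ε + 1 + |c| + |d|) := by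
    intro x hx
    rw [mem_closedBall_zero_iff, pi_norm_le_iff_of_nonneg (by positivity)]
    obtain ⟨h1, h2⟩ := hx
    rw [abs_le] at h1 h2
    have c1 := le_abs_self c
    have c2 := neg_abs_le c
    have d1 := le_abs_self d
    have d2 := neg_abs_le d
    intro i
    rw [Real.norm_eq_abs]
    have key : ∀ t : ℝ, t ^ 2 ≤ ρ + ε / 2 → |t| ≤ ρ + ε + 1 + |c| + |d| := by
      intro t ht
      rw [abs_le]
      have := abs_nonneg c
      have := abs_nonneg d
      constructor <;> nlinarith [sq_nonneg (t - 1), sq_nonneg (t + 1)]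
    fin_cases i
    · exact key (x 0) (by nlinarith [sq_nonneg (x 1)])
    · exact key (x 1) (by nlinarith [sq_nonneg (x 0)])
    · show |x 2| ≤ _
      rw [abs_le]
      constructor <;> linarith
  have hcs : HasCompactSupport χ := by
    apply HasCompactSupport.intro (isCompact_closedBall (0 : V) (ρ + ε + 1 + |c| + |d|))
    intro x hx
    by_contra hcon
    exact hx (hKb (hsub hcon))
  refine ⟨χ, hs, hcs, fun θ x => ?_, fun x hx => ?_, ![√ρ, 0, (c + d) / 2], ?_⟩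
  · show b1 (rot θ x 0 ^ 2 + rot θ x 1 ^ 2) * b2 (rot θ x 2) = _
    have h := Real.sin_sq_add_cos_sq θ
    have e : rot θ x 0 ^ 2 + rot θ x 1 ^ 2 = x 0 ^ 2 + x 1 ^ 2 := by
      rw [rot_zero', rot_one']
      linear_combination (x 0 ^ 2 + x 1 ^ 2) * h
    rw [e, rot_two']
  · obtain ⟨h1, h2⟩ := hts hx
    rw [abs_le] at h2
    exact ⟨by linarith, by linarith, by linarith⟩
  · have e1 : (![√ρ, 0, (c + d) / 2] : V) 0 ^ 2 + (![√ρ, 0, (c + d) / 2] : V) 1 ^ 2 = ρ := by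
      show √ρ ^ 2 + 0 ^ 2 = ρ
      rw [Real.sq_sqrt hρ]
      ring
    have t1 : Tendsto (fun x : V => x 0 ^ 2 + x 1 ^ 2) (𝓝 ![√ρ, 0, (c + d) / 2]) (𝓝 ρ) := by
      have := s1.continuous.tendsto (![√ρ, 0, (c + d) / 2] : V)
      rw [e1] at this
      exact this
    have t2 : Tendsto (fun x : V => x 2) (𝓝 ![√ρ, 0, (c + d) / 2]) (𝓝 ((c + d) / 2)) :=
      (continuous_apply 2).tendsto (![√ρ, 0, (c + d) / 2] : V)
    filter_upwards [t1.eventually b1.eventuallyEq_one, t2.eventually b2.eventuallyEq_one]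
      with x h1 h2
    show b1 (x 0 ^ 2 + x 1 ^ 2) * b2 (x 2) = 1
    rw [h1, h2]
    simp

end Pool.Agent.Run7.h980.AX
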