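import Mathlib
import Pool.Agent.Run7.h980.AX.Geo
import Pool.Agent.Run7.h407.D.Uc

/-!
An axisymmetric field which is not a steady Euler flow drives an axisymmetric divergence-free field
orthogonal to it.
-/

namespace Pool.Agent.Run7.h980.AX

open Set Filter Topology MeasureTheory
open scoped ContDiff
open Pool.Agent.Run7.h407 Pool.Agent.Run7.h407.G Pool.Agent.Run7.h407.G.X

/-- The axisymmetric fields in `D0`. -/
noncomputable def D0A : Submodule ℝ (V → V) where
  carrier := {v | v ∈ D0 ∧ Axi v}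
  add_mem' := fun {u v} hu hv => ⟨D0.add_mem hu.1 hv.1, hu.2.add hv.2⟩
  zero_mem' := ⟨D0.zero_mem, fun θ _ => (rot_zero θ).symm⟩
  smul_mem' := fun c _ hu => ⟨D0.smul_mem c hu.1, hu.2.smul c⟩

/-- Restriction of a functional. -/
noncomputable def rstA {f : (V → V) → ℝ} (hf : LinF f) : D0A →ₗ[ℝ] ℝ where
  toFun := fun v => f v
  map_add' := fun u v => hf.add _ _ u.2.1.1 v.2.1.1
  map_smul' := fun c u => hf.smul c _ u.2.1.1

variable {U : V → V}

theorem altA (hU : CF U) : (∃ φ ∈ D0A, ip U φ = 0 ∧ Dir U φ = 0 ∧ tri U U φ ≠ 0) ∨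
    ∃ α β : ℝ, ∀ φ ∈ D0A, tri U U φ = α * ip U φ + β * Dir U φ := by
  by_cases h : ∃ φ ∈ D0A, ip U φ = 0 ∧ Dir U φ = 0 ∧ tri U U φ ≠ 0
  · exact Or.inl h
  · right
    push Not at h
    have h1 : ⨅ i, LinearMap.ker ((![rstA (lin_ip hU), rstA (lin_Dir hU)] :
        Fin 2 → (D0A →ₗ[ℝ] ℝ)) i) ≤ LinearMap.ker (rstA (lin_tri hU)) := by
      intro v hv
      rw [Submodule.mem_iInf] at hv
      have a1 := hv 0
      have a2 := hv 1
      rw [LinearMap.mem_ker] at a1 a2 ⊢
      exact h v v.2 a1 a2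
    have h2 := mem_span_of_iInf_ker_le_ker h1
    rw [Submodule.mem_span_range_iff_exists_fun] at h2
    obtain ⟨c, hc⟩ := h2
    refine ⟨c 0, c 1, fun φ hφ => ?_⟩
    have h3 := congrArg (fun f => f ⟨φ, hφ⟩) hc
    simp only [Fin.sum_univ_two] at h3
    exact h3.symm

/-- The gradient. -/
noncomputable def grd (g : V → ℝ) (x : V) : V := fun k => pd k g x

theorem grd_Axi {g : V → ℝ} (hs : Sm g) (h : AxS g) : Axi (grd g) := by
  intro θ x
  have e : (fun y => g (rot θ y)) = g := funext fun y => h θ y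
  have h0 := pd_rot0 θ x (hs.diff (rot θ x))
  have h1 := pd_rot1 θ x (hs.diff (rot θ x))
  have h2 := pd_rot2 θ x (hs.diff (rot θ x))
  rw [e] at h0 h1 h2
  have hsc := Real.sin_sq_add_cos_sq θ
  apply ext3
  · rw [rot_zero']
    show pd 0 g (rot θ x) = Real.cos θ * pd 0 g x - Real.sin θ * pd 1 g x
    rw [h0, h1]
    linear_combination (-(pd 0 g (rot θ x))) * hsc
  · rw [rot_one']
    show pd 1 g (rot θ x) = Real.sin θ * pd 0 g x + Real.cos θ * pd 1 g x
    rw [h0, h1]
    linear_combination (-(pd 1 g (rot θ x))) * hsc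
  · rw [rot_two']
    show pd 2 g (rot θ x) = pd 2 g x
    rw [h2]

theorem dvg_AxS {F : V → V} (hs : ∀ i, Sm (fun y => F y i)) (h : Axi F) : AxS (dvg F) := by
  intro θ x
  obtain ⟨c0, c1, c2⟩ := h.comp θ
  have a0 := pd_rot0 θ x ((hs 0).diff (rot θ x))
  have a1 := pd_rot1 θ x ((hs 0).diff (rot θ x))
  have b0 := pd_rot0 θ x ((hs 1).diff (rot θ x))
  have b1 := pd_rot1 θ x ((hs 1).diff (rot θ x))
  have d2 := pd_rot2 θ x ((hs 2).diff (rot θ x))
  rw [c0, pd_lin2 (hs 0) (hs 1)] at a0 a1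
  rw [c1, pd_lin2 (hs 0) (hs 1)] at b0 b1
  rw [c2] at d2
  unfold dvg
  rw [Fin.sum_univ_three, Fin.sum_univ_three, ← d2]
  have hsc := Real.sin_sq_add_cos_sq θ
  linear_combination (-Real.cos θ) * a0 + Real.sin θ * a1 - Real.sin θ * b0 - Real.cos θ * b1
    + (pd 0 (fun y => F y 0) x + pd 1 (fun y => F y 1) x
      - pd 0 (fun y => F y 0) (rot θ x) - pd 1 (fun y => F y 1) (rot θ x)) * hsc

theorem dvg_sm' {F : V → V} (hs : ∀ i, Sm (fun y => F y i)) : Sm (dvg F) := by
  unfold dvg
  apply ContDiff.sum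
  intro i _
  exact (hs i).pd i

/-- The test field. -/
noncomputable def CC (F : V → V) : V → V := fun x =>
  Cu 0 (om 0 F) x + (Cu 1 (om 1 F) x + Cu 2 (om 2 F) x)

theorem CC_eq {F : V → V} (hF : CF F) (x : V) : CC F x = lap F x - grd (dvg F) x := by
  have hs := hF.smc
  have e : ∀ (a b c d k : Fin 3), pd k (fun x => pd a (fun y => F y b) x - pd c (fun y => F y d) x) x
      = pd k (pd a (fun y => F y b)) x - pd k (pd c (fun y => F y d)) x := fun a b c d k =>
    pd_sub (((hs b).pd a).diff x) (((hs d).pd c).diff x) k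
  have e0 : ∀ k, pd k (om 0 F) x = pd k (pd 1 (fun y => F y 0)) x - pd k (pd 0 (fun y => F y 1)) x :=
    fun k => e 1 0 0 1 k
  have e1 : ∀ k, pd k (om 1 F) x = pd k (pd 2 (fun y => F y 1)) x - pd k (pd 1 (fun y => F y 2)) x :=
    fun k => e 2 1 1 2 k
  have e2 : ∀ k, pd k (om 2 F) x = pd k (pd 0 (fun y => F y 2)) x - pd k (pd 2 (fun y => F y 0)) x :=
    fun k => e 0 2 2 0 k
  have ed : ∀ k, pd k (dvg F) x = pd k (pd 0 (fun y => F y 0)) x + pd k (pd 1 (fun y => F y 1)) x
      + pd k (pd 2 (fun y => F y 2)) x := by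
    intro k
    have : dvg F = fun y => ∑ i, pd i (fun z => F z i) y := rfl
    rw [this, pd_sum fun i _ => ((hs i).pd i).diff x, Fin.sum_univ_three]
  have c01 : ∀ b, pd 0 (pd 1 (fun y => F y b)) x = pd 1 (pd 0 (fun y => F y b)) x := fun b =>
    pd_comm (hs b) 0 1 x
  have c02 : ∀ b, pd 0 (pd 2 (fun y => F y b)) x = pd 2 (pd 0 (fun y => F y b)) x := fun b =>
    pd_comm (hs b) 0 2 x
  have c12 : ∀ b, pd 1 (pd 2 (fun y => F y b)) x = pd 2 (pd 1 (fun y => F y b)) x := fun b =>
    pd_comm (hs b) 1 2 x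
  apply ext3
  · show (Cu 0 (om 0 F) x 0 + (Cu 1 (om 1 F) x 0 + Cu 2 (om 2 F) x 0))
      = lap F x 0 - pd 0 (dvg F) x
    unfold Cu lap
    simp only [Fin.sum_univ_three]
    rw [ed]
    simp
    rw [e0, e2]
    linear_combination c01 1 + c02 2
  · show (Cu 0 (om 0 F) x 1 + (Cu 1 (om 1 F) x 1 + Cu 2 (om 2 F) x 1))
      = lap F x 1 - pd 1 (dvg F) x
    unfold Cu lap
    simp only [Fin.sum_univ_three]
    rw [ed]
    simp
    rw [e0, e1]
    linear_combination c12 2 - c01 0
  · show (Cu 0 (om 0 F) x 2 + (Cu 1 (om 1 F) x 2 + Cu 2 (om 2 F) x 2))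
      = lap F x 2 - pd 2 (dvg F) x
    unfold Cu lap
    simp only [Fin.sum_univ_three]
    rw [ed]
    simp
    rw [e1, e2]
    linear_combination (-1 : ℝ) * c12 1 - c02 0

theorem CC_Axi {F : V → V} (hF : CF F) (h : Axi F) : Axi (CC F) := by
  have e : CC F = fun x => lap F x - grd (dvg F) x := funext fun x => CC_eq hF x
  rw [e]
  exact (h.lap hF.smc).sub (grd_Axi (dvg_sm' hF.smc) (dvg_AxS hF.smc h))

theorem CC_CF {F : V → V} (hF : CF F) : CF (CC F) :=
  (Cu_CF (om_sm hF 0) (om_cs hF 0) 0).add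
    ((Cu_CF (om_sm hF 1) (om_cs hF 1) 1).add (Cu_CF (om_sm hF 2) (om_cs hF 2) 2))

theorem CC_dvg {F : V → V} (hF : CF F) (x : V) : dvg (CC F) x = 0 := by
  have h0 := Cu_CF (om_sm hF 0) (om_cs hF 0) 0
  have h1 := Cu_CF (om_sm hF 1) (om_cs hF 1) 1
  have h2 := Cu_CF (om_sm hF 2) (om_cs hF 2) 2
  unfold CC
  rw [dvg_add h0 (h1.add h2), dvg_add h1 h2, Cu_dvg (om_sm hF 0), Cu_dvg (om_sm hF 1),
    Cu_dvg (om_sm hF 2)]
  ring

theorem LinF.CC {f : (V → V) → ℝ} (hf : LinF f) {F : V → V} (hF : CF F) :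
    f (CC F) = ∑ i, f (Cu i (om i F)) := by
  have h0 := Cu_CF (om_sm hF 0) (om_cs hF 0) 0
  have h1 := Cu_CF (om_sm hF 1) (om_cs hF 1) 1
  have h2 := Cu_CF (om_sm hF 2) (om_cs hF 2) 2
  rw [Fin.sum_univ_three, add_assoc, ← hf.add _ _ h1 h2, ← hf.add _ _ h0 (h1.add h2)]
  rfl

theorem om_comb {A B C : V → V} (hA : CF A) (hB : CF B) (hC : CF C) (α β : ℝ) (i : Fin 3) (x : V) :
    om i (fun x => A x + (α • B x + β • C x)) x = om i A x + α * om i B x + β * om i C x := by
  have e : ∀ a b, pd a (fun y => A y b + (α * B y b + β * C y b)) x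
      = pd a (fun y => A y b) x + (α * pd a (fun y => B y b) x + β * pd a (fun y => C y b) x) := by
    intro a b
    have s1 : Sm (fun y => α * B y b) := contDiff_const.mul (hB.smc b)
    have s2 : Sm (fun y => β * C y b) := contDiff_const.mul (hC.smc b)
    have s3 : Sm (fun y => α * B y b + β * C y b) := s1.add s2
    rw [pd_add ((hA.smc b).diff x) (s3.diff x), pd_add (s1.diff x) (s2.diff x),
      pd_const_mul _ ((hB.smc b).diff x), pd_const_mul _ ((hC.smc b).diff x)]
  unfold om
  show pd (i + 1) (fun y => A y i + (α * B y i + β * C y i)) x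
    - pd i (fun y => A y (i + 1) + (α * B y (i + 1) + β * C y (i + 1))) x = _
  rw [e, e]
  ring

theorem exists_phiA (hU : CF U) (hd : ∀ x, dvg U x = 0) (hn : 0 < ip U U) (ha : Aw0 U)
    (hax : Axi U) (hns : ∃ i x, om i (adv U U) x ≠ 0) :
    ∃ φ, CF φ ∧ (∀ x, dvg φ x = 0) ∧ Axi φ ∧ Aw0 φ ∧ ip U φ = 0 ∧ Dir U φ = 0 ∧
      tri U U φ = -1 := by
  rcases altA hU with ⟨φ, ⟨⟨h1, h2, h3⟩, h3'⟩, h4, h5, h6⟩ | ⟨α, β, h⟩
  · refine ⟨fun x => (-(tri U U φ)⁻¹) • φ x, h1.smul _, fun x => ?_, h3'.smul _, h3.smul _, ?_, ?_,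
      ?_⟩
    · rw [dvg_smul _ h1, h2, mul_zero]
    · have := (lin_ip hU).smul (-(tri U U φ)⁻¹) φ h1
      exact this.trans (by rw [h4, mul_zero])
    · have := (lin_Dir hU).smul (-(tri U U φ)⁻¹) φ h1
      exact this.trans (by rw [h5, mul_zero])
    · rw [tri_smul_right]
      field_simp
  exfalso
  have cA := adv_CF hU hU
  have cL := lap_CF hU
  have aA : Aw0 (adv U U) := ha.adv _
  have aL : Aw0 (lap U) := ha.lap
  set F : V → V := fun x => adv U U x + ((-α) • U x + β • lap U x) with hF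
  have cF : CF F := cA.add ((hU.smul _).add (cL.smul _))
  have aF : Aw0 F := aA.add ((ha.smul _).add (aL.smul _))
  have xF : Axi F := (Axi.adv hax hax hU.smc).add ((hax.smul _).add ((Axi.lap hax hU.smc).smul _))
  set G : Fin 3 → V → ℝ := fun i => om i F with hG
  have hGe : ∀ i x, G i x = om i (adv U U) x - α * om i U x + β * om i (lap U) x := by
    intro i x
    rw [hG, hF]
    simp only
    rw [om_comb cA hU cL]
    ring
  have sG : ∀ i, Sm (G i) := fun i => om_sm cF i
  have cG : ∀ i, HasCompactSupport (G i) := fun i => om_cs cF i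
  have aG : ∃ a > 0, ∀ i x, ‖x‖ < a → G i x = 0 := by
    obtain ⟨a, ha, hF⟩ := aF
    refine ⟨a, ha, fun i x hx => ?_⟩
    have hz : ∀ᶠ y in 𝓝 x, F y = 0 := by
      filter_upwards [nhds_ltn hx] with y hy
      exact hF y hy
    show om i F x = 0
    unfold om
    rw [pd_ev_zero hz, pd_ev_zero hz, sub_zero]
  have hGz : ∀ i x, G i x = 0 := by
    obtain ⟨a, ap, az⟩ := aG
    have hCz : ∀ i x, ‖x‖ < a → Cu i (om i F) x = 0 := by
      intro i x hx
      by_contra hcon
      have h1 := Cu_supp hcon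
      have h2 : x ∉ tsupport (om i F) := by
        rw [notMem_tsupport_iff_eventuallyEq]
        filter_upwards [nhds_ltn hx] with y hy
        exact az i y hy
      exact h2 h1
    have hmem : CC F ∈ D0A := by
      refine ⟨⟨CC_CF cF, CC_dvg cF, a, ap, fun x hx => ?_⟩, CC_Axi cF xF⟩
      unfold CC
      rw [hCz 0 x hx, hCz 1 x hx, hCz 2 x hx]
      simp
    have h1 := h _ hmem
    have e1 : tri U U (CC F) = ∑ i, -∫ x, G i x * om i (adv U U) x := by
      have := LinF.CC (lin_tri hU) cF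
      refine this.trans (Finset.sum_congr rfl fun i _ => ?_)
      rw [← ip_adv]
      exact ip_Cu cA (sG i) (cG i) i
    have e2 : ip U (CC F) = ∑ i, -∫ x, G i x * om i U x := by
      have := LinF.CC (lin_ip hU) cF
      exact this.trans (Finset.sum_congr rfl fun i _ => ip_Cu hU (sG i) (cG i) i)
    have e3 : Dir U (CC F) = ∑ i, ∫ x, G i x * om i (lap U) x := by
      have := LinF.CC (lin_Dir hU) cF
      refine this.trans (Finset.sum_congr rfl fun i _ => ?_)
      have h2 := ip_lap hU (Cu_CF (sG i) (cG i) i)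
      rw [ip_Cu cL (sG i) (cG i) i] at h2
      exact (by linarith : Dir U (Cu i (G i)) = ∫ x, G i x * om i (lap U) x)
    rw [e1, e2, e3] at h1
    have e4 : ∀ i, ∫ x, G i x ^ 2 = (∫ x, G i x * om i (adv U U) x)
        + (-α) * (∫ x, G i x * om i U x) + β * (∫ x, G i x * om i (lap U) x) := by
      intro i
      have i1 : Integrable (fun x => G i x * om i (adv U U) x) volume :=
        integrable_of_cs (sG i).continuous (cG i) (om_sm cA i).continuous
      have i2 : Integrable (fun x => G i x * om i U x) volume :=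
        integrable_of_cs (sG i).continuous (cG i) (om_sm hU i).continuous
      have i3 : Integrable (fun x => G i x * om i (lap U) x) volume :=
        integrable_of_cs (sG i).continuous (cG i) (om_sm cL i).continuous
      have : ∫ x, G i x ^ 2 = 1 * (∫ x, G i x * om i (adv U U) x)
          + (-α) * (∫ x, G i x * om i U x) + β * (∫ x, G i x * om i (lap U) x)
          + 0 * ∫ x, G i x * om i U x := by
        rw [← Carl.lin4 _ _ _ _ i1 i2 i3 i2]
        congr 1
        funext x
        have := hGe i x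
        calc G i x ^ 2 = G i x * G i x := sq _
          _ = G i x * (om i (adv U U) x - α * om i U x + β * om i (lap U) x) := by rw [← this]
          _ = _ := by ring
      rw [this]
      ring
    have hsum : ∑ i, ∫ x, G i x ^ 2 = 0 := by
      rw [Fin.sum_univ_three] at h1 ⊢
      rw [Fin.sum_univ_three, Fin.sum_univ_three] at h1
      rw [e4, e4, e4]
      linarith
    have hnn : ∀ i ∈ Finset.univ, 0 ≤ ∫ x, G i x ^ 2 := fun i _ =>
      integral_nonneg fun x => sq_nonneg _
    intro i x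
    apply Carl.eq_zero_of_sq (sG i) (cG i) _ x
    exact ((Finset.sum_eq_zero_iff_of_nonneg hnn).1 hsum i (Finset.mem_univ i)).le
  by_cases hβ : β = 0
  · have h1 := h U ⟨⟨hU, hd, ha⟩, hax⟩
    rw [tri_self hU hd hU, hβ, zero_mul, add_zero] at h1
    have hα : α = 0 := by
      rcases mul_eq_zero.1 h1.symm with h2 | h2
      · exact h2
      · linarith
    obtain ⟨i, x, hx⟩ := hns
    apply hx
    have h2 := hGz i x
    rw [hGe, hα, hβ] at h2
    linarith
  · -- the case of a damped stationary viscous flow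
    choose M0 m0 b0 using fun k : Fin 3 => cs_bound' (hU.smc k) (hU.csc k)
    choose M1 m1 b1 using fun (i j : Fin 3) =>
      cs_bound' ((hU.smc i).pd j) (pd_cs (hU.csc i) j)
    set A0 := ∑ k, M0 k with hA0
    set A1 := ∑ i, ∑ j, M1 i j with hA1
    have hA0' : ∀ k, M0 k ≤ A0 := fun k =>
      Finset.single_le_sum (f := M0) (fun k _ => m0 k) (Finset.mem_univ k)
    have hA1' : ∀ i j, M1 i j ≤ A1 := by
      intro i j
      refine (Finset.single_le_sum (f := fun j => M1 i j) (fun j _ => m1 i j)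
        (Finset.mem_univ j)).trans ?_
      exact Finset.single_le_sum (f := fun i => ∑ j, M1 i j)
        (fun i _ => Finset.sum_nonneg fun j _ => m1 i j) (Finset.mem_univ i)
    have hA1p : 0 ≤ A1 := (m1 0 0).trans (hA1' 0 0)
    have hβa : 0 < |β| := abs_pos.2 hβ
    have hA0p : 0 ≤ A0 := (m0 0).trans (hA0' 0)
    have key : ∀ i x, |Carl.Lp (om i U) x|
        ≤ (|α| + A0 + 6 * A1) / |β| * (∑ m, |om m U x| + ∑ m, ∑ k, |pd k (om m U) x|) := by
      intro i x
      have h1 := hGz i x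
      rw [hGe, om_lap hU] at h1
      set S1 := ∑ m, |om m U x| with hS1
      set S2 := ∑ m, ∑ k, |pd k (om m U) x| with hS2
      have hS10 : 0 ≤ S1 := Finset.sum_nonneg fun m _ => abs_nonneg _
      have hS20 : 0 ≤ S2 := Finset.sum_nonneg fun m _ => Finset.sum_nonneg fun k _ => abs_nonneg _
      have hom : |om i U x| ≤ S1 :=
        Finset.single_le_sum (f := fun m => |om m U x|) (fun m _ => abs_nonneg _)
          (Finset.mem_univ i)
      have hgr : ∑ k, |pd k (om i U) x| ≤ S2 :=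
        Finset.single_le_sum (f := fun m => ∑ k, |pd k (om m U) x|)
          (fun m _ => Finset.sum_nonneg fun k _ => abs_nonneg _) (Finset.mem_univ i)
      have h2 : |om i (adv U U) x| ≤ A0 * S2 + 6 * A1 * S1 := by
        rw [om_adv hU]
        refine (abs_add_le _ _).trans (add_le_add ?_ ?_)
        · refine (Finset.abs_sum_le_sum_abs _ _).trans ?_
          have h3 : ∑ k, |U x k * pd k (om i U) x| ≤ ∑ k, A0 * |pd k (om i U) x| := by
            apply Finset.sum_le_sum
            intro k _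
            rw [abs_mul]
            exact mul_le_mul_of_nonneg_right ((b0 k x).trans (hA0' k)) (abs_nonneg _)
          rw [← Finset.mul_sum] at h3
          exact h3.trans (mul_le_mul_of_nonneg_left hgr hA0p)
        · refine (Finset.abs_sum_le_sum_abs _ _).trans ?_
          have h3 : ∑ j, |wg U (i + 1) j x * pd j (fun y => U y i) x
              - wg U i j x * pd j (fun y => U y (i + 1)) x| ≤ ∑ _j : Fin 3, 2 * (S1 * A1) := by
            apply Finset.sum_le_sum
            intro j _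
            refine (abs_sub _ _).trans ?_
            rw [abs_mul, abs_mul]
            have p1 := mul_le_mul (wg_le U (i + 1) j x) ((b1 i j x).trans (hA1' i j))
              (abs_nonneg _) hS10
            have p2 := mul_le_mul (wg_le U i j x) ((b1 (i + 1) j x).trans (hA1' (i + 1) j))
              (abs_nonneg _) hS10
            linarith
          simp only [Finset.sum_const, Finset.card_univ, Fintype.card_fin, nsmul_eq_mul,
            Nat.cast_ofNat] at h3
          linarith
      rw [div_mul_eq_mul_div, le_div_iff₀ hβa]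
      have h4 : |Carl.Lp (om i U) x| * |β| = |α * om i U x - om i (adv U U) x| := by
        rw [← abs_mul]
        congr 1
        linarith
      rw [h4]
      refine (abs_sub _ _).trans ?_
      rw [abs_mul]
      have h5 := mul_le_mul_of_nonneg_left hom (abs_nonneg α)
      have h6 : 0 ≤ |α| * S2 := mul_nonneg (abs_nonneg _) hS20
      have h7 : 0 ≤ A0 * S1 := mul_nonneg hA0p hS10
      have h8 : 0 ≤ 6 * A1 * S2 := by positivity
      nlinarith
    have h9 := Carl.uc (fun i => om i U) (fun i => om_sm hU i) (fun i => om_cs hU i) key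
    have h10 : ∀ x, U x = 0 := fun x => zero_of_om hU hd h9 x
    have h11 : ip U U = 0 := by
      unfold ip
      simp [h10]
    linarith


end Pool.Agent.Run7.h980.AX
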