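import Mathlib
import Pool.Agent.Run7.h980.AX.Geo
import Pool.Agent.Run7.h407.D.Uc

/-!
Axisymmetric perturbations which are amplified by a given axisymmetric field and orthogonal to
finitely many functionals.
-/

namespace Pool.Agent.Run7.h980.AX

open Set Filter Topology MeasureTheory
open scoped ContDiff
open Pool.Agent.Run7.h407 Pool.Agent.Run7.h407.G Pool.Agent.Run7.h407.G.X

variable {U : V → V}

/-- The radial component, multiplied by the distance from the axis. -/
noncomputable def fr (U : V → V) (x : V) : ℝ := x 0 * U x 0 + x 1 * U x 1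

theorem fr_sm (hU : CF U) : Sm (fr U) :=
  ((coord_sm 0).mul (hU.smc 0)).add ((coord_sm 1).mul (hU.smc 1))

theorem fr_AxS (ha : Axi U) : AxS (fr U) := by
  intro θ x
  unfold fr
  rw [ha, rot_zero', rot_one', rot_zero', rot_one']
  have h := Real.sin_sq_add_cos_sq θ
  linear_combination (x 0 * U x 0 + x 1 * U x 1) * h

theorem qd_sw (hU : CF U) (ha : Axi U) (h : V → ℝ) (x : V) :
    qd U (sw h x) x = h x ^ 2 * fr U x := by
  obtain ⟨e0, e1, -⟩ := Axi_inf ha hU.smc x
  unfold qd fr
  rw [Fin.sum_univ_three, Fin.sum_univ_three, Fin.sum_univ_three, Fin.sum_univ_three, sw_zero,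
    sw_one, sw_two]
  linear_combination (-(x 1) * h x ^ 2) * e0 + (x 0 * h x ^ 2) * e1

/-- There is an axisymmetric amplified field annihilated by the functionals. -/
def PpA (U : V → V) (F : List ((V → V) → ℝ)) (O : Set V) : Prop :=
  ∃ T, CF T ∧ (∀ x, dvg T x = 0) ∧ Axi T ∧ (∀ x, T x ≠ 0 → x ∈ O) ∧ 0 < -tri T U T ∧
    ∀ f ∈ F, f T = 0

theorem baseA (hU : CF U) (ha : Axi U) {ρ ε c d : ℝ} (hρ : 0 ≤ ρ) (hε : 0 < ε) (hcd : c < d)
    (hneg : ∀ x ∈ Rg ρ ε c d, fr U x < 0) : PpA U [] (Rg ρ ε c d) := by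
  obtain ⟨χ, hs, hc, hax, hsub, y, hy⟩ := exists_bmp hρ hε hcd
  refine ⟨sw χ, sw_CF hs hc, sw_dvg hs (AxS_ax hs hax), sw_Axi hax, fun x hx => ?_, ?_,
    fun f hf => absurd hf (by simp)⟩
  · exact hsub (sw_ne hx)
  · rw [tri_qd, ← integral_neg]
    have e : (fun x => -qd U (sw χ x) x) = fun x => χ x * (-(χ x * fr U x)) := by
      funext x
      rw [qd_sw hU ha]
      ring
    rw [e]
    have hyt : y ∈ tsupport χ := by
      by_contra hcon
      have h1 := image_eq_zero_of_notMem_tsupport hcon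
      rw [hy.self_of_nhds] at h1
      exact one_ne_zero h1
    have hc1 : Continuous (fun x => χ x * (-(χ x * fr U x))) :=
      hs.continuous.mul (hs.continuous.mul (fr_sm hU).continuous).neg
    apply hc1.integral_pos_of_hasCompactSupport_nonneg_nonzero hc.mul_right
    · intro x
      show 0 ≤ χ x * (-(χ x * fr U x))
      by_cases hx : x ∈ tsupport χ
      · have := hneg x (hsub hx)
        nlinarith [sq_nonneg (χ x)]
      · rw [image_eq_zero_of_notMem_tsupport hx]
        simp
    · have h1 := hneg y (hsub hyt)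
      rw [hy.self_of_nhds]
      intro h2
      linarith

theorem adv_sm {u v : V → V} (hu : ∀ i, Sm (fun y => u y i)) (hv : ∀ i, Sm (fun y => v y i))
    (i : Fin 3) : Sm (fun x => adv u v x i) := by
  unfold adv
  apply ContDiff.sum
  intro j _
  exact (hu j).mul ((hv i).pd j)

/-- The generator of the rotations. -/
noncomputable def Jf : V → V := sw (fun _ => 1)

theorem Jf_sm (i : Fin 3) : Sm (fun y => Jf y i) := sw_sm contDiff_const i

theorem Jf_Axi : Axi Jf := sw_Axi fun _ _ => rfl

/-- The coupling of the poloidal field with the swirl. -/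
noncomputable def Eb (U : V → V) (χ : V → ℝ) (x : V) : ℝ :=
  (∑ i, adv (str χ) U x i * Jf x i) + ∑ i, adv Jf U x i * str χ x i

/-- The vertical derivative of the circulation. -/
noncomputable def Dz (U : V → V) (x : V) : ℝ :=
  x 0 * pd 2 (fun y => U y 1) x - x 1 * pd 2 (fun y => U y 0) x

theorem Dz_sm (hU : CF U) : Sm (Dz U) :=
  ((coord_sm 0).mul ((hU.smc 1).pd 2)).sub ((coord_sm 1).mul ((hU.smc 0).pd 2))

theorem Dz_AxS (hU : CF U) (ha : Axi U) : AxS (Dz U) := by
  have h1 : Axi (fun _ : V => ez) := fun θ _ => (rot_ez θ).symm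
  have h2 := Axi_dot (Axi.adv h1 ha hU.smc) Jf_Axi
  have e : (fun x => ∑ i, adv (fun _ => ez) U x i * Jf x i) = Dz U := by
    funext x
    unfold adv ez Dz Jf
    simp only [Fin.sum_univ_three, sw_zero, sw_one, sw_two]
    simp
    ring
  rw [e] at h2
  exact h2

section caseB

variable {χ : V → ℝ} (hU : CF U) (ha : Axi U) (hs : Sm χ) (hc : HasCompactSupport χ) (hax : AxS χ)

include hs hU in
theorem Eb_sm : Sm (Eb U χ) := by
  have h1 : Sm (fun x => ∑ i, adv (str χ) U x i * Jf x i) := by
    apply ContDiff.sum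
    intro i _
    exact (adv_sm (str_sm hs) hU.smc i).mul (Jf_sm i)
  have h2 : Sm (fun x => ∑ i, adv Jf U x i * str χ x i) := by
    apply ContDiff.sum
    intro i _
    exact (adv_sm Jf_sm hU.smc i).mul (str_sm hs i)
  exact h1.add h2

theorem Eb_zero {x : V} (hx : x ∉ tsupport χ) : Eb U χ x = 0 := by
  have h1 := str_eq_zero hx
  unfold Eb
  have h2 : adv (str χ) U x = 0 := by
    funext i
    unfold adv
    rw [h1]
    simp
  rw [h1, h2]
  simp

include hc in
theorem Eb_cs : HasCompactSupport (Eb U χ) := by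
  apply HasCompactSupport.intro hc.isCompact
  intro x hx
  exact Eb_zero hx

include hs hU ha hax in
theorem Eb_AxS : AxS (Eb U χ) := by
  have h1 := Axi_dot (Axi.adv (str_Axi hs hax) ha hU.smc) Jf_Axi
  have h2 := Axi_dot (Axi.adv Jf_Axi ha hU.smc) (str_Axi hs hax)
  intro θ x
  exact congrArg₂ (· + ·) (h1 θ x) (h2 θ x)

include hU ha in
theorem Eb_at {y : V} (hy : ∀ᶠ x in 𝓝 y, χ x = 1) : Eb U χ y = 2 * Dz U y := by
  obtain ⟨-, -, e2⟩ := Axi_inf ha hU.smc y
  have h0 : ∀ j, pd j χ y = 0 := by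
    intro j
    have : χ =ᶠ[𝓝 y] fun _ => (1 : ℝ) := hy
    rw [pd_congr this, pd_const]
  have h1 := hy.self_of_nhds
  unfold Eb adv Dz Jf
  simp only [Fin.sum_univ_three, sw_zero, sw_one, sw_two, str_zero, str_one, str_two, h0, h1]
  linear_combination 2 * e2

include hs hc in
theorem str_CF : CF (str χ) := by
  apply CF.of_comp (fun i => str_sm hs i)
  intro i
  apply HasCompactSupport.intro hc.isCompact
  intro x hx
  rw [str_eq_zero hx]
  rfl

end caseB

theorem baseB (hU : CF U) (ha : Axi U) {ρ ε c d : ℝ} (hρ : 0 ≤ ρ) (hε : 0 < ε) (hcd : c < d)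
    (hf : ∀ x, fr U x = 0) (hD : ∀ x ∈ Rg ρ ε c d, Dz U x ≠ 0) : PpA U [] (Rg ρ ε c d) := by
  obtain ⟨χ, hs, hc, hax, hsub, y, hy⟩ := exists_bmp hρ hε hcd
  have sE := Eb_sm (χ := χ) hU hs
  have cE : HasCompactSupport (Eb U χ) := Eb_cs hc
  have aE := Eb_AxS hU ha hs hax
  set E := Eb U χ with hE
  have P1 := str_CF hs hc
  have S1 := sw_CF sE cE
  have hyt : y ∈ tsupport χ := by
    by_contra hcon
    have h1 := image_eq_zero_of_notMem_tsupport hcon
    rw [hy.self_of_nhds] at h1
    exact one_ne_zero h1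
  have hEy : E y ≠ 0 := by
    rw [hE, Eb_at hU ha hy]
    have := hD y (hsub hyt)
    positivity
  have hcross : tri (str χ) U (sw E) + tri (sw E) U (str χ) = ∫ x, E x * E x := by
    unfold tri
    rw [← integral_add (tri_int P1.sm.continuous hU.sm S1) (tri_int S1.sm.continuous hU.sm P1)]
    congr 1
    funext x
    rw [hE]
    have e1 : ∀ i, sw (Eb U χ) x i = Eb U χ x * Jf x i := by
      intro i
      fin_cases i
      · show -(x 1) * Eb U χ x = Eb U χ x * (-(x 1) * 1)
        ring
      · show x 0 * Eb U χ x = Eb U χ x * (x 0 * 1)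
        ring
      · show (0 : ℝ) = Eb U χ x * 0
        ring
    have e2 : Eb U χ x * Eb U χ x
        = (∑ i, (∑ j, str χ x j * pd j (fun y => U y i) x) * (Eb U χ x * Jf x i))
          + ∑ i, (∑ j, (Eb U χ x * Jf x j) * pd j (fun y => U y i) x) * str χ x i := by
      conv_lhs =>
        rw [show Eb U χ x * Eb U χ x = Eb U χ x * ((∑ i, adv (str χ) U x i * Jf x i)
          + ∑ i, adv Jf U x i * str χ x i) from rfl]
      unfold adv
      simp only [Fin.sum_univ_three]
      ring
    rw [e2]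
    simp only [e1]
  have hself : tri (sw E) U (sw E) = 0 := by
    rw [tri_qd]
    have : (fun x => qd U (sw E x) x) = fun _ => 0 := by
      funext x
      rw [qd_sw hU ha, hf, mul_zero]
    rw [this]
    simp
  have hI : 0 < ∫ x, E x * E x := by
    apply (sE.continuous.mul sE.continuous).integral_pos_of_hasCompactSupport_nonneg_nonzero
      cE.mul_right
    · intro x
      exact mul_self_nonneg (E x)
    · exact mul_self_ne_zero.2 hEy
  set I := ∫ x, E x * E x with hId
  obtain ⟨lam, hlam⟩ : ∃ lam : ℝ, tri (str χ) U (str χ) + lam * I < 0 := by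
    refine ⟨-(|tri (str χ) U (str χ)| + 1) / I, ?_⟩
    rw [div_mul_cancel₀ _ hI.ne']
    linarith [le_abs_self (tri (str χ) U (str χ))]
  refine ⟨fun x => str χ x + lam • sw E x, P1.add (S1.smul lam), fun x => ?_,
    (str_Axi hs hax).add ((sw_Axi aE).smul lam), fun x hx => ?_, ?_,
    fun f hf => absurd hf (by simp)⟩
  · rw [dvg_add P1 (S1.smul lam), dvg_smul _ S1, str_dvg hs, sw_dvg sE (AxS_ax sE aE)]
    ring
  · apply hsub
    by_contra hcon
    apply hx
    have h1 : sw E x = 0 := by
      by_contra h2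
      have h3 : x ∈ tsupport (Eb U χ) := sw_ne h2
      have h4 : tsupport (Eb U χ) ⊆ tsupport χ := by
        apply closure_minimal _ (isClosed_tsupport χ)
        intro z hz
        by_contra h5
        exact hz (Eb_zero h5)
      exact hcon (h4 h3)
    show str χ x + lam • sw E x = 0
    rw [str_eq_zero hcon, h1, smul_zero, add_zero]
  · have h2 := S1.smul lam
    rw [tri_add_left P1 h2 hU (P1.add h2), tri_add_right P1 hU P1 h2,
      tri_add_right h2 hU P1 h2, tri_smul_left, tri_smul_left, tri_smul_right, tri_smul_right,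
      hself]
    have : tri (str χ) U (str χ) + lam * tri (str χ) U (sw E)
        + (lam * tri (sw E) U (str χ) + lam * (lam * 0))
        = tri (str χ) U (str χ) + lam * I := by
      rw [← hcross]
      ring
    rw [this]
    linarith

theorem PpA_step (hU : CF U) {F : List ((V → V) → ℝ)} {ρ ε a b : ℝ} (hF : ∀ g ∈ F, LinF g)
    {f : (V → V) → ℝ} (hf : LinF f)
    (h : ∀ c d : ℝ, a ≤ c → c < d → d ≤ b → PpA U F (Rg ρ ε c d)) :
    ∀ c d : ℝ, a ≤ c → c < d → d ≤ b → PpA U (f :: F) (Rg ρ ε c d) := by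
  intro c d hac hcd hdb
  obtain ⟨T1, c1, d1, a1, s1, p1, f1⟩ := h c ((c + d) / 2) hac (by linarith) (by linarith)
  obtain ⟨T2, c2, d2, a2, s2, p2, f2⟩ := h ((c + d) / 2) d (by linarith) (by linarith) hdb
  have sub1 : Rg ρ ε c ((c + d) / 2) ⊆ Rg ρ ε c d := fun x hx =>
    ⟨hx.1, hx.2.1, by linarith [hx.2.2]⟩
  have sub2 : Rg ρ ε ((c + d) / 2) d ⊆ Rg ρ ε c d := fun x hx =>
    ⟨hx.1, by linarith [hx.2.1], hx.2.2⟩
  by_cases h0 : f T1 = 0
  · refine ⟨T1, c1, d1, a1, fun x hx => sub1 (s1 x hx), p1, fun g hg => ?_⟩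
    rcases List.mem_cons.1 hg with rfl | hg
    · exact h0
    · exact f1 g hg
  · have hdis : ∀ x, T1 x = 0 ∨ T2 x = 0 := by
      intro x
      by_contra hcon
      push Not at hcon
      have b1 := (s1 x hcon.1).2.2
      have b2 := (s2 x hcon.2).2.1
      linarith
    refine ⟨fun x => (f T2) • T1 x + (-f T1) • T2 x, (c1.smul _).add (c2.smul _), fun x => ?_,
      (a1.smul _).add (a2.smul _), fun x hx => ?_, ?_, fun g hg => ?_⟩
    · rw [dvg_add (c1.smul _) (c2.smul _), dvg_smul _ c1, dvg_smul _ c2, d1, d2]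
      ring
    · rcases hdis x with h1 | h1
      · apply sub2
        apply s2 x
        intro h2
        apply hx
        show (f T2) • T1 x + (-f T1) • T2 x = 0
        rw [h1, h2, smul_zero, smul_zero, add_zero]
      · apply sub1
        apply s1 x
        intro h2
        apply hx
        show (f T2) • T1 x + (-f T1) • T2 x = 0
        rw [h1, h2, smul_zero, smul_zero, add_zero]
    · have e : tri (fun x => (f T2) • T1 x + (-f T1) • T2 x) U
          (fun x => (f T2) • T1 x + (-f T1) • T2 x)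
          = (f T2) ^ 2 * tri T1 U T1 + (f T1) ^ 2 * tri T2 U T2 := by
        rw [tri_qd, tri_qd, tri_qd, ← integral_const_mul, ← integral_const_mul, ← integral_add]
        · congr 1
          funext x
          show qd U ((f T2) • T1 x + (-f T1) • T2 x) x = _
          rw [qd_comb U (hdis x), neg_sq]
        · exact (tri_int c1.sm.continuous hU.sm c1).const_mul _
        · exact (tri_int c2.sm.continuous hU.sm c2).const_mul _
      rw [e]
      have h3 : 0 < (f T1) ^ 2 := by positivity
      have h4 : 0 ≤ (f T2) ^ 2 := sq_nonneg _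
      nlinarith
    · rcases List.mem_cons.1 hg with rfl | hg
      · rw [hf.add _ _ (c1.smul _) (c2.smul _), hf.smul _ _ c1, hf.smul _ _ c2]
        ring
      · have hgl := hF g hg
        rw [hgl.add _ _ (c1.smul _) (c2.smul _), hgl.smul _ _ c1, hgl.smul _ _ c2, f1 g hg,
          f2 g hg]
        ring

/-- The integral of the radial component vanishes. -/
theorem int_fr (hU : CF U) (hd : ∀ x, dvg U x = 0) : ∫ x, fr U x = 0 := by
  have s0 : Sm (fun x : V => (x 0 * x 0 + x 1 * x 1) / 2) :=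
    (((coord_sm 0).mul (coord_sm 0)).add ((coord_sm 1).mul (coord_sm 1))).div_const 2
  have hg : ∀ j (x : V), pd j (fun x : V => (x 0 * x 0 + x 1 * x 1) / 2) x
      = (if (0 : Fin 3) = j then x 0 else 0) + (if (1 : Fin 3) = j then x 1 else 0) := by
    intro j x
    have e : (fun x : V => (x 0 * x 0 + x 1 * x 1) / 2)
        = fun x => (1 / 2) * (x 0 * x 0 + x 1 * x 1) := by
      funext x
      ring
    have t0 : Sm (fun x : V => x 0 * x 0) := (coord_sm 0).mul (coord_sm 0)
    have t1 : Sm (fun x : V => x 1 * x 1) := (coord_sm 1).mul (coord_sm 1)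
    have t01 : Sm (fun x : V => x 0 * x 0 + x 1 * x 1) := t0.add t1
    rw [e, pd_const_mul _ (t01.diff x), pd_add (t0.diff x) (t1.diff x),
      pd_mul ((coord_sm 0).diff x) ((coord_sm 0).diff x),
      pd_mul ((coord_sm 1).diff x) ((coord_sm 1).diff x), pd_coord, pd_coord]
    by_cases h0 : (0 : Fin 3) = j
    · subst h0
      simp
      ring
    · by_cases h1 : (1 : Fin 3) = j
      · subst h1
        simp
        ring
      · simp [h0, h1]
  have k : ∀ j, ∫ x, U x j * pd j (fun x : V => (x 0 * x 0 + x 1 * x 1) / 2) x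
      = -∫ x, pd j (fun y => U y j) x * ((x 0 * x 0 + x 1 * x 1) / 2) := fun j =>
    ibp (hU.smc j) s0 (hU.csc j) j
  have i1 : ∀ j, Integrable (fun x => U x j * pd j (fun x : V => (x 0 * x 0 + x 1 * x 1) / 2) x)
      volume := fun j => integrable_of_cs (hU.smc j).continuous (hU.csc j) (s0.pd j).continuous
  have i2 : ∀ j, Integrable (fun x => pd j (fun y => U y j) x * ((x 0 * x 0 + x 1 * x 1) / 2))
      volume := fun j => integrable_of_cs ((hU.smc j).pd j).continuous (pd_cs (hU.csc j) j)
        s0.continuous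
  have e1 : ∫ x, fr U x = ∑ j, ∫ x, U x j * pd j (fun x : V => (x 0 * x 0 + x 1 * x 1) / 2) x := by
    rw [← integral_finsetSum _ fun j _ => i1 j]
    congr 1
    funext x
    rw [Fin.sum_univ_three, hg, hg, hg]
    unfold fr
    simp
    ring
  have e2 : ∑ j, ∫ x, pd j (fun y => U y j) x * ((x 0 * x 0 + x 1 * x 1) / 2) = 0 := by
    rw [← integral_finsetSum _ fun j _ => i2 j]
    have : (fun x : V => ∑ j, pd j (fun y => U y j) x * ((x 0 * x 0 + x 1 * x 1) / 2))
        = fun _ => 0 := by
      funext x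
      rw [← Finset.sum_mul]
      have h1 : ∑ j, pd j (fun y => U y j) x = 0 := hd x
      rw [h1, zero_mul]
    rw [this]
    simp
  rw [e1]
  simp_rw [k]
  rw [Finset.sum_neg_distrib, e2, neg_zero]

/-- A compactly supported function which does not depend on `x₂` vanishes. -/
theorem zero_of_pd2 {f : V → ℝ} (hs : Sm f) (hc : HasCompactSupport f) (h : ∀ x, pd 2 f x = 0)
    (x : V) : f x = 0 := by
  have h3 := ibp hs ((coord_sm 2).mul hs) hc 2
  have h4 : ∀ x, pd 2 (fun y => y 2 * f y) x = f x := by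
    intro x
    rw [pd_mul ((coord_sm 2).diff x) (hs.diff x), h, pd_coord, if_pos rfl]
    ring
  simp only [h4, h, zero_mul, integral_zero, neg_zero] at h3
  apply Carl.eq_zero_of_sq hs hc _ x
  have : ∫ x, f x ^ 2 = 0 := by
    rw [← h3]
    congr 1
    funext x
    ring
  rw [this]

theorem case_B (hU : CF U) (hd : ∀ x, dvg U x = 0) (hn : 0 < ip U U)
    (hf : ∀ x, fr U x = 0) : ∃ y, Dz U y ≠ 0 := by
  by_contra hcon
  push Not at hcon
  -- the circulation vanishes
  have sG : Sm (fun x => x 0 * U x 1 - x 1 * U x 0) :=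
    ((coord_sm 0).mul (hU.smc 1)).sub ((coord_sm 1).mul (hU.smc 0))
  have cG : HasCompactSupport (fun x => x 0 * U x 1 - x 1 * U x 0) :=
    ((hU.csc 1).mul_left (f := fun x : V => x 0)).sub
      ((hU.csc 0).mul_left (f := fun x : V => x 1))
  have pG : ∀ x, pd 2 (fun x => x 0 * U x 1 - x 1 * U x 0) x = 0 := by
    intro x
    have t0 : Sm (fun x => x 0 * U x 1) := (coord_sm 0).mul (hU.smc 1)
    have t1 : Sm (fun x => x 1 * U x 0) := (coord_sm 1).mul (hU.smc 0)
    rw [pd_sub (t0.diff x) (t1.diff x), pd_mul ((coord_sm 0).diff x) ((hU.smc 1).diff x),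
      pd_mul ((coord_sm 1).diff x) ((hU.smc 0).diff x), pd_coord, pd_coord]
    have h1 := hcon x
    unfold Dz at h1
    simp
    linarith
  have hG : ∀ x, x 0 * U x 1 - x 1 * U x 0 = 0 := zero_of_pd2 sG cG pG
  -- the horizontal components vanish
  have hz : ∀ x : V, (x 0 ^ 2 + x 1 ^ 2) * U x 0 = 0 ∧ (x 0 ^ 2 + x 1 ^ 2) * U x 1 = 0 := by
    intro x
    have h1 := hf x
    have h2 := hG x
    unfold fr at h1
    constructor
    · linear_combination x 0 * h1 - x 1 * h2
    · linear_combination x 1 * h1 + x 0 * h2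
  have hcl : ∀ (g : V → ℝ), Continuous g → (∀ x : V, (x 0 ^ 2 + x 1 ^ 2) * g x = 0) →
      ∀ x, g x = 0 := by
    intro g hg h x
    by_cases hx : x 0 = 0
    · -- approach by points off the axis
      have t1 : Tendsto (fun t : ℝ => g (x + t • (Pi.single 0 1 : V))) (𝓝[≠] 0)
          (𝓝 (g (x + (0 : ℝ) • (Pi.single 0 1 : V)))) := by
        have : Continuous (fun t : ℝ => g (x + t • (Pi.single 0 1 : V))) := by fun_prop
        exact (this.tendsto 0).mono_left nhdsWithin_le_nhds
      rw [zero_smul, add_zero] at t1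
      have t2 : Tendsto (fun t : ℝ => g (x + t • (Pi.single 0 1 : V))) (𝓝[≠] 0) (𝓝 0) := by
        apply tendsto_const_nhds.congr'
        filter_upwards [self_mem_nhdsWithin] with t ht
        have h1 := h (x + t • (Pi.single 0 1 : V))
        have e : (x + t • (Pi.single 0 1 : V)) 0 = t := by
          simp [hx]
        rw [e] at h1
        have ht' : t ≠ 0 := ht
        have h2 : 0 < t ^ 2 + (x + t • (Pi.single 0 1 : V)) 1 ^ 2 := by positivity
        rcases mul_eq_zero.1 h1 with h3 | h3
        · exact absurd h3 h2.ne'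
        · exact h3.symm
      exact tendsto_nhds_unique t1 t2
    · have h1 : 0 < x 0 ^ 2 + x 1 ^ 2 := by positivity
      rcases mul_eq_zero.1 (h x) with h3 | h3
      · exact absurd h3 h1.ne'
      · exact h3
  have z0 := hcl (fun x => U x 0) (hU.smc 0).continuous fun x => (hz x).1
  have z1 := hcl (fun x => U x 1) (hU.smc 1).continuous fun x => (hz x).2
  have p2 : ∀ x, pd 2 (fun y => U y 2) x = 0 := by
    intro x
    have h1 : ∑ i, pd i (fun y => U y i) x = 0 := hd x
    have e0 : (fun y => U y 0) = fun _ => 0 := funext z0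
    have e1 : (fun y => U y 1) = fun _ => 0 := funext z1
    rw [Fin.sum_univ_three, e0, e1, pd_const, pd_const] at h1
    linarith
  have z2 := zero_of_pd2 (hU.smc 2) (hU.csc 2) p2
  have h0 : ip U U = 0 := by
    unfold ip
    have : (fun x => ∑ i, U x i * U x i) = fun _ => 0 := by
      funext x
      have a0 : U x 0 = 0 := z0 x
      have a1 : U x 1 = 0 := z1 x
      have a2 : U x 2 = 0 := z2 x
      rw [Fin.sum_univ_three, a0, a1, a2]
      ring
    rw [this]
    simp
  linarith

theorem ring_base (hU : CF U) (hd : ∀ x, dvg U x = 0) (hn : 0 < ip U U) (ha : Axi U) :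
    ∃ ρ ε z : ℝ, 0 < ε ∧ (∀ x ∈ Rg ρ ε (z - ε) (z + ε), x ∈ tsupport U) ∧
      ∀ c d : ℝ, z - ε ≤ c → c < d → d ≤ z + ε → PpA U [] (Rg ρ ε c d) := by
  by_cases hA : ∃ y, fr U y < 0
  · obtain ⟨y, hy⟩ := hA
    obtain ⟨ε, hε, h⟩ := exists_ring (fr_sm hU).continuous (fr_AxS ha) isOpen_Iio
      (y := y) (O := Iio 0) hy
    refine ⟨y 0 ^ 2 + y 1 ^ 2, ε, y 2, hε, fun x hx => ?_, fun c d hc hcd hd' => ?_⟩
    · apply subset_tsupport
      intro h0
      have h1 : fr U x < 0 := h x hx
      unfold fr at h1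
      rw [h0] at h1
      simp at h1
    · apply baseA hU ha (by positivity) hε hcd
      intro x hx
      exact h x ⟨hx.1, by linarith [hx.2.1], by linarith [hx.2.2]⟩
  · push Not at hA
    have hf : ∀ x, fr U x = 0 := by
      intro x
      by_contra hx
      have hcs : HasCompactSupport (fr U) :=
        ((hU.csc 0).mul_left (f := fun x : V => x 0)).add
          ((hU.csc 1).mul_left (f := fun x : V => x 1))
      have := (fr_sm hU).continuous.integral_pos_of_hasCompactSupport_nonneg_nonzero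
        (μ := volume) hcs (fun x => hA x) hx
      rw [int_fr hU hd] at this
      exact lt_irrefl _ this
    obtain ⟨y, hy⟩ := case_B hU hd hn hf
    obtain ⟨ε, hε, h⟩ := exists_ring (Dz_sm hU).continuous (Dz_AxS hU ha)
      (isOpen_compl_singleton (x := (0 : ℝ))) (y := y) hy
    refine ⟨y 0 ^ 2 + y 1 ^ 2, ε, y 2, hε, fun x hx => ?_, fun c d hc hcd hd' => ?_⟩
    · by_contra hcon
      have h1 : Dz U x ≠ 0 := h x hx
      apply h1
      have h2 : ∀ᶠ z in 𝓝 x, U z = 0 := notMem_tsupport_iff_eventuallyEq.1 hcon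
      unfold Dz
      rw [pd_ev_zero h2, pd_ev_zero h2]
      ring
    · apply baseB hU ha (by positivity) hε hcd hf
      intro x hx
      exact h x ⟨hx.1, by linarith [hx.2.1], by linarith [hx.2.2]⟩

/-- The perturbation amplified by `U`. -/
theorem exists_T0A (hU : CF U) (hd : ∀ x, dvg U x = 0) (hn : 0 < ip U U) (ha : Axi U) :
    ∃ T, CF T ∧ (∀ x, dvg T x = 0) ∧ Axi T ∧ (∀ x, T x ≠ 0 → x ∈ tsupport U) ∧
      0 < -tri T U T ∧ ip U T = 0 ∧ Dir U T = 0 ∧ tri U U T = 0 := by
  obtain ⟨ρ, ε, z, hε, hsub, s0⟩ := ring_base hU hd hn ha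
  have f1 : LinF (fun v => ip U v) := lin_ip hU
  have f2 : LinF (fun v => Dir U v) := lin_Dir hU
  have f3 : LinF (fun v => tri U U v) := lin_tri hU
  have s1 := PpA_step hU (F := []) (by simp) f1 s0
  have s2 := PpA_step hU (F := [fun v => ip U v]) (by simpa using f1) f2 s1
  have s3 := PpA_step hU (F := [fun v => Dir U v, fun v => ip U v]) (by
    intro g hg
    simp only [List.mem_cons, List.not_mem_nil, or_false] at hg
    rcases hg with rfl | rfl
    · exact f2
    · exact f1) f3 s2
  obtain ⟨T, a, b, b', c, d, e⟩ := s3 (z - ε) (z + ε) le_rfl (by linarith) le_rfl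
  exact ⟨T, a, b, b', fun x hx => hsub x (c x hx), d, e (fun v => ip U v) (by simp),
    e (fun v => Dir U v) (by simp), e (fun v => tri U U v) (by simp)⟩

end Pool.Agent.Run7.h980.AX
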