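import Mathlib
import Pool.Agent.Run7.h980.AX.Pos
import Pool.Agent.Run7.h980.AX.Phi
import Pool.Agent.Run7.h407.DU.FinU

/-!
Axisymmetry of the chains, the sources.
-/

namespace Pool.Agent.Run7.h407.G.X.H980

open Set Filter Topology MeasureTheory
open scoped ContDiff
open Pool.Agent.Run7.h980.AX

/-- The modes and the constraint fields are axisymmetric. -/
def AxF (p : ℕ → V → V) (g : ℕ → Fin 3 → V → V) : Prop := (∀ n, Axi (p n)) ∧ ∀ n i, Axi (g n i)

theorem zero_Axi : Axi (fun _ => 0) := fun θ _ => (rot_zero θ).symm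

theorem G3_Axi' {P : ℕ → V → V} (hP : ∀ n, Axi (P n)) (hs : ∀ n i, Sm (fun y => P n y i)) (n : ℕ)
    (i : Fin 3) : Axi (G3 P n i) := by
  fin_cases i
  · exact ((hP _).adv (hP _) (hs _)).add (((hP _).smul _).sub ((hP _).smul _))
  · exact (((hP _).adv (hP _) (hs _)).add ((hP _).adv (hP _) (hs _))).add
      (((hP _).smul _).sub ((hP _).smul _))
  · exact ((hP _).lap (hs _)).add ((hP _).smul _)

theorem Q_Axi (c : Sc) {U T : V → V} (hU : Axi U) (hT : Axi T) (n : ℕ) : Axi (c.Q U T n) := by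
  match n with
  | 0 => exact zero_Axi
  | 1 => exact hU
  | 2 => exact hT.add (c.P_Axi 1)
  | n + 3 => exact c.P_Axi (n + 2)

theorem Q_sm (c : Sc) {U T : V → V} (hU : CF U) (hT : CF T) (n : ℕ) (i : Fin 3) :
    Sm (fun y => c.Q U T n y i) := by
  match n with
  | 0 => exact contDiff_const
  | 1 => exact hU.smc i
  | 2 => exact (hT.add (c.chn.cf 1)).smc i
  | n + 3 => exact (c.chn.cf (n + 2)).smc i

theorem AxF_Q (c : Sc) {U T : V → V} (hU : Axi U) (hT : Axi T) (cU : CF U) (cT : CF T) :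
    AxF (fun n => c.Q U T (n + 1)) (G3 (c.Q U T)) :=
  ⟨fun n => Q_Axi c hU hT (n + 1), fun n i => G3_Axi' (Q_Axi c hU hT) (Q_sm c cU cT) n i⟩

theorem Tc_Axi {T0 φ : V → V} (hT : Axi T0) (hφ : Axi φ) (c : ℝ) : Axi (Tc T0 φ c) :=
  hT.add (hφ.smul c)

theorem P0_Axi {U V0 : V → V} (hU : Axi U) (hV : Axi V0) (b s : ℝ) : Axi (P0 U V0 b s) :=
  hU.add ((hV.dil s).smul b)

theorem Tl_Axi {F : V → V} (hF : Axi F) (t : ℝ) : Axi (Tl (t • ez) F) := hF.trans t

theorem Tl_Axi' {F : V → V} (hF : Axi F) (t : ℝ) : Axi (Tl (-(t • ez)) F) := by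
  have h := Tl_Axi hF (-t)
  rw [neg_smul] at h
  exact h

theorem AxF.tl {p : ℕ → V → V} {g : ℕ → Fin 3 → V → V} (h : AxF p g) (t : ℝ) :
    AxF (fun n => Tl (t • ez) (p n)) (fun n i => Tl (t • ez) (g n i)) :=
  ⟨fun n => Tl_Axi (h.1 n) t, fun n i => Tl_Axi (h.2 n i) t⟩

variable {U : V → V}

theorem exists_srcA (hU : CF U) (hd : ∀ x, dvg U x = 0) (ha : Aw0 U) (hax : Axi U)
    (hns : ∃ i x, om i (adv U U) x ≠ 0) :
    ∃ (T0 φ : V → V) (l R1 : ℝ), Src U T0 φ l R1 ∧ Axi T0 ∧ Axi φ := by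
  have hn := ip_pos_of_om hU hns
  obtain ⟨T0, t1, t2, tA, t3, t4, t5, t6, t7⟩ := exists_T0A hU hd hn hax
  obtain ⟨φ, f1, f2, fA, ⟨b, hb, f3⟩, f4, f5, f6⟩ := exists_phiA hU hd hn ha hax hns
  obtain ⟨a, ha, hz⟩ := ha
  obtain ⟨r1, q1⟩ := bdd_of_cs hU.cs
  obtain ⟨r2, q2⟩ := bdd_of_cs t1.cs
  obtain ⟨r3, q3⟩ := bdd_of_cs f1.cs
  have hm : 0 < min a b := lt_min ha hb
  refine ⟨T0, φ, min a b, max (min a b) (max r1 (max r2 r3)),
    { l0 := hm, lR := le_max_left _ _, cu := hU, du := hd, ct := t1, dt := t2, cf := f1, df := f2,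
      su := fun x hx => ⟨?_, ?_⟩, st := fun x hx => ⟨?_, ?_⟩, sf := fun x hx => ⟨?_, ?_⟩,
      n0 := hn, iut := t5, dut := t6, tut := t7, b0 := t4, iuf := f4, duf := f5, tuf := f6 },
    tA, fA⟩
  · by_contra hcon
    push Not at hcon
    exact hx (hz x (hcon.trans_le (min_le_left _ _)))
  · exact (q1 x hx).trans ((le_max_left _ _).trans (le_max_right _ _))
  · by_contra hcon
    push Not at hcon
    have h1 := t3 x hx
    have h2 : x ∉ tsupport U := by
      rw [notMem_tsupport_iff_eventuallyEq]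
      filter_upwards [nhds_ltn (hcon.trans_le (min_le_left _ _))] with y hy
      exact hz y hy
    exact h2 h1
  · exact (q2 x hx).trans ((le_max_left _ _).trans ((le_max_right _ _).trans (le_max_right _ _)))
  · by_contra hcon
    push Not at hcon
    exact hx (f3 x (hcon.trans_le (min_le_right _ _)))
  · exact (q3 x hx).trans ((le_max_right _ _).trans ((le_max_right _ _).trans (le_max_right _ _)))

theorem exists_src0A : ∃ (V0 T0 φ : V → V) (l R1 : ℝ), Src V0 T0 φ l R1 ∧ 0 < Dir V0 V0 ∧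
    Axi V0 ∧ Axi T0 ∧ Axi φ := by
  let c : Sc := ⟨1, fun _ => 2, fun _ => 1, le_rfl, fun _ => le_rfl, fun _ => one_pos,
    fun _ => le_rfl⟩
  have hc := c.chn
  have hU := hc.cf 1
  have hd := hc.dv 1
  have hn : 0 < ip (c.P 1) (c.P 1) := hc.N0 0
  have hσ : c.σ 0 = 1 := c.σ_zero
  have hD : 0 < Dir (c.P 1) (c.P 1) := by
    have h1 := c.dd_low 0
    have h2 := S0_pos
    rw [hσ, one_pow, one_mul] at h1
    exact h2.trans_le h1
  have hC : 0 < Cc c.P 1 := by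
    rw [c.cc_eq 0, hσ]
    have := β0_pos
    show 0 < (1 : ℝ) ^ 5 * (1 * β0)
    rw [one_pow, one_mul, one_mul]
    exact this
  obtain ⟨T0, t1, t2, tA, t3, t4, t5, t6, t7⟩ := exists_T0A hU hd hn (c.P_Axi 1)
  have hs1 : ∀ x, c.P 1 x ≠ 0 → 3 / 4 ≤ ‖x‖ := by
    intro x hx
    have h1 := (c.blk_supp (n := 0) hx).1
    rw [hσ, one_pow, one_mul] at h1
    have h2 := norm_le_pi_norm x 2
    rw [Real.norm_eq_abs] at h2
    exact (h1.trans (le_abs_self _)).trans h2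
  have hσ1 : c.σ 1 = 2 := by
    rw [c.σ_succ, hσ]
    show (1 : ℝ) * 2 = 2
    norm_num
  have hs2 : ∀ x, c.P 2 x ≠ 0 → 3 / 16 ≤ ‖x‖ := by
    intro x hx
    have h1 := (c.blk_supp (n := 1) hx).1
    rw [hσ1] at h1
    have h2 := norm_le_pi_norm x 2
    rw [Real.norm_eq_abs] at h2
    have h3 := (le_abs_self (x 2)).trans h2
    linarith
  refine ⟨c.P 1, T0, fun x => (Cc c.P 1)⁻¹ • c.P 2 x, 3 / 16, 17 / 4,
    { l0 := by norm_num, lR := by norm_num, cu := hU, du := hd, ct := t1, dt := t2,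
      cf := (hc.cf 2).smul _
      df := fun x => ?_
      su := fun x hx => ⟨by linarith [hs1 x hx], hc.ball 1 x hx⟩
      st := fun x hx => ?_
      sf := fun x hx => ?_
      n0 := hn, iut := t5, dut := t6, tut := t7, b0 := t4
      iuf := ?_
      duf := ?_
      tuf := ?_ }, hD, c.P_Axi 1, tA, (c.P_Axi 2).smul _⟩
  · rw [dvg_smul _ (hc.cf 2), hc.dv, mul_zero]
  · have h1 := t3 x hx
    have h2 : tsupport (c.P 1) ⊆ {y | 3 / 4 ≤ ‖y‖} ∩ {y | ‖y‖ ≤ 17 / 4} := by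
      apply closure_minimal
      · intro y hy
        exact ⟨hs1 y hy, hc.ball 1 y hy⟩
      · exact (isClosed_le continuous_const continuous_norm).inter
          (isClosed_le continuous_norm continuous_const)
    have h3 := h2 h1
    exact ⟨by linarith [h3.1.out], h3.2⟩
  · have h1 : c.P 2 x ≠ 0 := by
      intro h
      apply hx
      show (Cc c.P 1)⁻¹ • c.P 2 x = 0
      rw [h, smul_zero]
    exact ⟨hs2 x h1, hc.ball 2 x h1⟩
  · rw [ip_comm, ip_smul_left, ip_comm, hc.ip1, mul_zero]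
  · rw [Dir_comm, Dir_smul_left _ (hc.cf 2), Dir_comm, hc.Dir1, mul_zero]
  · rw [tri_smul_right]
    have h1 : tri (c.P 1) (c.P 1) (c.P 2) = -Cc c.P 1 := by
      show _ = - -tri (c.P 1) (c.P 1) (c.P (1 + 1))
      rw [neg_neg]
    rw [h1]
    field_simp

end Pool.Agent.Run7.h407.G.X.H980
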