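import Mathlib
import Pool.Agent.Run7.h980.AX.Cut

/-!
The circulation of the solutions is unbounded.
-/

namespace Pool.Agent.Run7.h407.G.X.H980

open Set Filter Topology MeasureTheory
open scoped ContDiff
open Pool.Agent.Run7.h980.AX

/-- The first unit vector. -/
noncomputable def ex : V := Pi.single 0 1

theorem ex_zero : ex 0 = 1 := by simp [ex]
theorem ex_one : ex 1 = 0 := by simp [ex]
theorem ex_two : ex 2 = 0 := by simp [ex]
theorem ez_zero : ez 0 = 0 := by simp [ez]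
theorem ez_one : ez 1 = 0 := by simp [ez]

theorem chi_off {y : V} (h : 1 / 16 < s2 y) : y ∉ tsupport chi := fun h1 => by
  have := chi_tsupport h1
  linarith

theorem psi3_one (r μ δ : ℝ) {Y : V} (hY : Y 1 = 0) : psi3 r μ δ Y 1
    = (δ * μ ^ 5) * ((μ ^ 2 * Y 0) * pd 2 chi (μ ^ 2 • Y - μ ^ 2 • ez))
      + Y 0 * chi (Y - r ^ 2 • ez) := by
  rw [psi3_pieces]
  simp only [Pi.add_apply, Pi.smul_apply, smul_eq_mul]
  rw [str_one, sw_one, sw_one]
  simp only [Pi.sub_apply, Pi.smul_apply, smul_eq_mul]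
  rw [hY, ez_one, ez_zero]
  ring

theorem s2_e (t : ℝ) : s2 (t • ex) = t ^ 2 := by
  unfold s2
  simp only [Pi.smul_apply, smul_eq_mul]
  rw [ex_zero, ex_one, ex_two]
  ring

theorem chi_e : chi ((1 / 8 : ℝ) • ex) = 1 := chi_one (by
  rw [s2_e]
  norm_num)

theorem pd_chi_e : pd 2 chi ((1 / 8 : ℝ) • ex) = 0 := by
  have h1 : ∀ᶠ y in 𝓝 ((1 / 8 : ℝ) • ex), s2 y < 1 / 32 := by
    apply s2_sm.continuous.continuousAt.eventually_lt continuousAt_const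
    rw [s2_e]
    norm_num
  have h2 : chi =ᶠ[𝓝 ((1 / 8 : ℝ) • ex)] fun _ => (1 : ℝ) := by
    filter_upwards [h1] with y hy
    exact chi_one hy.le
  rw [pd_congr h2, pd_const]

variable {U T : V → V} {l R1 : ℝ} {c : Sc}

/-- The place of the swirl. -/
noncomputable def xc (c : Sc) (m : ℕ) : V :=
  (c.σ (m + 2) ^ 2)⁻¹ • (c.ρ (m + 1) ^ 2 • ez + (1 / 8 : ℝ) • ex)

theorem xc_zero (c : Sc) (m : ℕ) : xc c m 0 = (c.σ (m + 2) ^ 2)⁻¹ * (1 / 8) := by
  unfold xc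
  simp only [Pi.smul_apply, Pi.add_apply, smul_eq_mul]
  rw [ex_zero, ez_zero]
  ring

theorem xc_one (c : Sc) (m : ℕ) : xc c m 1 = 0 := by
  unfold xc
  simp only [Pi.smul_apply, Pi.add_apply, smul_eq_mul]
  rw [ex_one, ez_one]
  ring

theorem xc_two (c : Sc) (m : ℕ) : xc c m 2 = (c.σ (m + 2) ^ 2)⁻¹ * c.ρ (m + 1) ^ 2 := by
  unfold xc
  simp only [Pi.smul_apply, Pi.add_apply, smul_eq_mul]
  rw [ex_two, ez_two]
  ring

theorem xc_child (c : Sc) (m : ℕ) :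
    c.σ (m + 2) ^ 2 • xc c m = c.ρ (m + 1) ^ 2 • ez + (1 / 8 : ℝ) • ex := by
  have h := c.σ_pos (m + 2)
  unfold xc
  rw [smul_smul, mul_inv_cancel₀ (by positivity), one_smul]

theorem xc_parent (c : Sc) (m : ℕ) :
    c.σ (m + 1) ^ 2 • xc c m = ez + (1 / 8 / c.ρ (m + 1) ^ 2) • ex := by
  have h := c.σ_pos (m + 1)
  have h' := c.ρ_pos (m + 1)
  unfold xc
  rw [c.σ_succ (m + 1), smul_smul, smul_add, smul_smul, smul_smul]
  congr 1
  · have : c.σ (m + 1) ^ 2 * ((c.σ (m + 1) * c.ρ (m + 1)) ^ 2)⁻¹ * c.ρ (m + 1) ^ 2 = 1 := by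
      field_simp
    rw [this, one_smul]
  · congr 1
    field_simp

theorem P_parent (c : Sc) (m : ℕ) : c.P (m + 2) (xc c m) 1 = 0 := by
  have h' := c.ρ_pos (m + 1)
  have hr := c.rr_two (m + 1)
  rw [c.P_succ]
  show c.σ (m + 1) ^ 3 * psi3 (c.rr (m + 1)) (c.ρ (m + 1)) (c.dl (m + 1))
    (c.σ (m + 1) ^ 2 • xc c m) 1 = 0
  have hY : (c.σ (m + 1) ^ 2 • xc c m) 1 = 0 := by
    rw [Pi.smul_apply, xc_one, smul_zero]
  rw [psi3_one _ _ _ hY, xc_parent]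
  have e1 : c.ρ (m + 1) ^ 2 • (ez + (1 / 8 / c.ρ (m + 1) ^ 2) • ex) - c.ρ (m + 1) ^ 2 • ez
      = (1 / 8 : ℝ) • ex := by
    rw [smul_add, smul_smul, add_sub_cancel_left]
    congr 1
    field_simp
  have e2 : chi (ez + (1 / 8 / c.ρ (m + 1) ^ 2) • ex - c.rr (m + 1) ^ 2 • ez) = 0 := by
    apply image_eq_zero_of_notMem_tsupport
    apply chi_off
    unfold s2
    simp only [Pi.sub_apply, Pi.add_apply, Pi.smul_apply, smul_eq_mul]
    rw [ez_two, ex_two, ez_one, ex_one, ez_zero, ex_zero]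
    have h3 : 3 ≤ c.rr (m + 1) ^ 2 - 1 := by nlinarith
    have h4 : 0 ≤ (1 / 8 / c.ρ (m + 1) ^ 2) ^ 2 := sq_nonneg _
    nlinarith
  rw [e1, e2, pd_chi_e]
  ring

theorem P_child (c : Sc) (m : ℕ) : c.P (m + 3) (xc c m) 1 = c.σ (m + 2) ^ 3 / 8 := by
  have h' := c.hρ (m + 1)
  have h2 := c.hρ (m + 2)
  rw [c.P_succ]
  show c.σ (m + 2) ^ 3 * psi3 (c.rr (m + 2)) (c.ρ (m + 2)) (c.dl (m + 2))
    (c.σ (m + 2) ^ 2 • xc c m) 1 = _
  have hY : (c.σ (m + 2) ^ 2 • xc c m) 1 = 0 := by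
    rw [Pi.smul_apply, xc_one, smul_zero]
  have hr : c.rr (m + 2) = c.ρ (m + 1) := rfl
  rw [psi3_one _ _ _ hY, xc_child, hr, add_sub_cancel_left, chi_e]
  have e2 : pd 2 chi (c.ρ (m + 2) ^ 2 • (c.ρ (m + 1) ^ 2 • ez + (1 / 8 : ℝ) • ex)
      - c.ρ (m + 2) ^ 2 • ez) = 0 := by
    apply pd_eq_zero
    apply chi_off
    unfold s2
    simp only [Pi.sub_apply, Pi.add_apply, Pi.smul_apply, smul_eq_mul]
    rw [ez_two, ex_two, ez_one, ex_one, ez_zero, ex_zero]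
    have h3 : 3 ≤ c.ρ (m + 1) ^ 2 - 1 := by nlinarith
    have h4 : 4 ≤ c.ρ (m + 2) ^ 2 := by nlinarith
    have h5 : 12 ≤ c.ρ (m + 2) ^ 2 * (c.ρ (m + 1) ^ 2 - 1) := by nlinarith
    nlinarith [sq_nonneg (c.ρ (m + 2) ^ 2 * (1 / 8))]
  have e3 : (c.ρ (m + 1) ^ 2 • ez + (1 / 8 : ℝ) • ex) 0 = 1 / 8 := by
    simp only [Pi.add_apply, Pi.smul_apply, smul_eq_mul]
    rw [ez_zero, ex_zero]
    ring
  rw [e2, e3]
  ring

/-- The circulation at the place of the swirl. -/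
theorem circ_at (hd : Dat U T l R1) (hl : 17 / 4 < c.σ 0 ^ 2 * l) {a : ℕ → ℝ} {v : V → V}
    (hm : Mem (c.Q U T) a v) (m : ℕ) :
    xc c m 0 * v (xc c m) 1 - xc c m 1 * v (xc c m) 0 = a (m + 4) * c.σ (m + 2) / 64 := by
  have h0 := c.σ_pos 0
  have hs1 := c.σ_pos (m + 1)
  have hs2 := c.σ_pos (m + 2)
  have hr := c.hρ (m + 1)
  have hr0 := c.ρ_pos (m + 1)
  set x := xc c m with hx
  -- the norm
  have hx2 : c.σ (m + 1) ^ 2 * x 2 = 1 := by
    rw [hx, xc_two, c.σ_succ (m + 1)]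
    field_simp
  have hnx : c.σ (m + 1) ^ 2 * ‖x‖ ≤ 1 := by
    have h1 : ‖c.σ (m + 1) ^ 2 • x‖ ≤ 1 := by
      rw [hx, xc_parent, pi_norm_le_iff_of_nonneg zero_le_one]
      intro i
      rw [Real.norm_eq_abs]
      fin_cases i
      · show |ez 0 + (1 / 8 / c.ρ (m + 1) ^ 2) * ex 0| ≤ 1
        rw [ez_zero, ex_zero, zero_add, mul_one, abs_of_pos (by positivity),
          div_le_one (by positivity)]
        nlinarith
      · show |ez 1 + (1 / 8 / c.ρ (m + 1) ^ 2) * ex 1| ≤ 1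
        rw [ez_one, ex_one]
        simp
      · show |ez 2 + (1 / 8 / c.ρ (m + 1) ^ 2) * ex 2| ≤ 1
        rw [ez_two, ex_two]
        simp
    rwa [norm_smul, Real.norm_eq_abs, abs_of_pos (by positivity)] at h1
  have h01 : c.σ 0 ^ 2 ≤ c.σ (m + 1) ^ 2 := pow_le_pow_left₀ h0.le (c.σ_mono (Nat.zero_le _)) 2
  have hxl : ‖x‖ < l := by
    have h3 : c.σ 0 ^ 2 * ‖x‖ < c.σ 0 ^ 2 * l := by
      have := mul_le_mul_of_nonneg_right h01 (norm_nonneg x)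
      linarith
    exact lt_of_mul_lt_mul_left h3 (by positivity)
  have hU : U x = 0 := by
    by_contra hcon
    linarith [(hd.su x hcon).1]
  have hT : T x = 0 := by
    by_contra hcon
    linarith [(hd.st x hcon).1]
  -- the other modes
  have hlow : ∀ k, k < m + 1 → c.P (k + 1) x = 0 := by
    intro k hk
    by_contra hcon
    have h3 := (c.blk_supp hcon).1
    have h4 := c.σ_sq hk
    have hx2p : 0 < x 2 := by
      by_contra h5
      push Not at h5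
      nlinarith [pow_pos hs1 2]
    nlinarith
  have hhigh : ∀ k, m + 2 ≤ k → c.P (k + 2) x = 0 := by
    intro k hk
    by_contra hcon
    have h4 := (c.chn.supp _ _ hcon).2.trans (c.hi_le k)
    have h5 : c.σ (m + 2) ^ 2 ≤ c.σ k ^ 2 := pow_le_pow_left₀ hs2.le (c.σ_mono hk) 2
    have h6 := c.σ_pos k
    rw [le_div_iff₀ (by positivity)] at h4
    have h7 : 4 * c.σ (m + 1) ^ 2 ≤ c.σ (m + 2) ^ 2 := c.σ_sq (by omega)
    have hx2p : 0 < x 2 := by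
      by_contra h5
      push Not at h5
      nlinarith [pow_pos hs1 2]
    nlinarith
  have hsum : HasSum (fun k => a k • c.Q U T k x) (∑ k ∈ {m + 3, m + 4}, a k • c.Q U T k x) := by
    apply hasSum_sum_of_ne_finset_zero
    intro k hk
    have hk' : k ≠ m + 3 ∧ k ≠ m + 4 := by
      simpa using hk
    have e2 : c.Q U T k x = 0 := by
      match k, hk' with
      | 0, _ => rfl
      | 1, _ => exact hU
      | 2, hk =>
        show T x + c.P 1 x = 0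
        rw [hT, zero_add]
        exact hlow 0 (by omega)
      | j + 3, hk =>
        show c.P (j + 2) x = 0
        rcases lt_trichotomy j m with h | h | h
        · exact hlow (j + 1) (by omega)
        · exact absurd h (by omega)
        · exact hhigh j (by omega)
    rw [e2, smul_zero]
  have hv := (hm x).unique hsum
  rw [Finset.sum_pair (by omega)] at hv
  have hv1 : v x 1 = a (m + 3) * c.P (m + 2) x 1 + a (m + 4) * c.P (m + 3) x 1 := by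
    rw [hv]
    rfl
  have p1 : c.P (m + 2) x 1 = 0 := P_parent c m
  have p2 : c.P (m + 3) x 1 = c.σ (m + 2) ^ 3 / 8 := P_child c m
  have x0 : x 0 = (c.σ (m + 2) ^ 2)⁻¹ * (1 / 8) := xc_zero c m
  have x1 : x 1 = 0 := xc_one c m
  rw [hv1, p1, p2, x0, x1]
  field_simp
  ring

/-- The circulation is unbounded. -/
theorem circ_lim {α γ s0 R L0 DT ν a0 : ℝ} {h : Pre α γ s0 R} (k : Lnk U T l R1 h L0 DT ν a0)
    (h4 : 4 ≤ α * γ) {Tb : ℝ} {A : ℕ → ℝ → ℝ} (S : Sol k.par Tb A) (M : ℝ) :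
    ∀ᶠ t in 𝓝[<] Tb, ∃ x : V, M < |x 0 * vel (h.sc.Q U T) (cofG (h.sc.Q U T) A) t x 1
      - x 1 * vel (h.sc.Q U T) (cofG (h.sc.Q U T) A) t x 0| := by
  have hs := h.s0_pos
  have ha0 := k.ha0
  have hg := Sc.goodQ (c := h.sc) (h.sc.wgt h.stp) k.hd k.hl
  have ht : Tendsto (fun n : ℕ => (a0 / 2 / s0 ^ (α * γ)) * (1.5 : ℝ) ^ n) atTop atTop := by
    apply Tendsto.const_mul_atTop (by positivity)
    exact tendsto_pow_atTop_atTop_of_one_lt (by norm_num)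
  obtain ⟨n, hn⟩ := (ht.eventually_gt_atTop (64 * M)).exists
  obtain ⟨σ, h0, h1, h2⟩ := S.low (n + 2 + 1)
  filter_upwards [Ioo_mem_nhdsLT h1] with t ht
  have htm : t ∈ Ico 0 Tb := ⟨h0.trans ht.1.le, ht.2⟩
  refine ⟨xc h.sc n, ?_⟩
  rw [circ_at k.hd k.hl (hg.mem k.pw S htm) n]
  have hlow := k.cof_low (h2 t ht)
  have hσ := h.sc.σ_pos (n + 2)
  have hσ1 := h.sc.σ_one (n + 2)
  have hkey : (a0 / 2 / s0 ^ (α * γ)) * (1.5 : ℝ) ^ n
      ≤ cofG (h.sc.Q U T) A (n + 4) t * h.sc.σ (n + 2) := by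
    refine le_trans ?_ (mul_le_mul_of_nonneg_right hlow hσ.le)
    have ez : (h.sc.σ (n + 2) / s0) ^ (α * γ) = h.sc.σ (n + 2) ^ (α * γ) / s0 ^ (α * γ) :=
      Real.div_rpow hσ.le hs.le _
    rw [ez]
    have e2 : h.sc.σ (n + 2) ^ 4 ≤ h.sc.σ (n + 2) ^ (α * γ) := by
      rw [← Real.rpow_natCast]
      apply Real.rpow_le_rpow_of_exponent_le hσ1
      push_cast
      linarith
    have hsp : 0 < s0 ^ (α * γ) := by positivity
    have e3 : a0 / 2 * (1.5 ^ (n + 2) * (h.sc.σ (n + 2) ^ (α * γ) / s0 ^ (α * γ)))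
        / h.sc.σ (n + 2) ^ 5 * h.sc.σ (n + 2)
        = (a0 / 2 / s0 ^ (α * γ)) * 1.5 ^ (n + 2)
          * (h.sc.σ (n + 2) ^ (α * γ) / h.sc.σ (n + 2) ^ 4) := by
      field_simp
    rw [e3]
    have e4 : 1 ≤ h.sc.σ (n + 2) ^ (α * γ) / h.sc.σ (n + 2) ^ 4 := by
      rw [one_le_div (by positivity)]
      exact e2
    have e5 : 0 < (a0 / 2 / s0 ^ (α * γ)) * (1.5 : ℝ) ^ n := by positivity
    have e6 : (a0 / 2 / s0 ^ (α * γ)) * (1.5 : ℝ) ^ (n + 2)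
        = 2.25 * ((a0 / 2 / s0 ^ (α * γ)) * (1.5 : ℝ) ^ n) := by
      rw [pow_add]
      ring
    rw [e6]
    nlinarith
  have h9 : 64 * M < cofG (h.sc.Q U T) A (n + 4) t * h.sc.σ (n + 2) := hn.trans_le hkey
  have h10 := le_abs_self (cofG (h.sc.Q U T) A (n + 4) t * h.sc.σ (n + 2) / 64)
  linarith

end Pool.Agent.Run7.h407.G.X.H980
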