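import Mathlib
import Pool.Agent.Run7.h980.AX.Circ

/-!
Blow-up with unbounded circulation.
-/

namespace Pool.Agent.Run7.h407.G.X.H980

open Set Filter Topology MeasureTheory
open scoped ContDiff
open Pool.Agent.Run7.h980.AX

/-- Blow-up from the datum `v` before the time `T₀`, with unbounded circulation. -/
def BloA (δ : ℝ) (z : V) (ρ : ℝ) (p : ℕ → V → V) (g : ℕ → Fin 3 → V → V) (ν : ℝ) (v : V → V)
    (T₀ : ℝ) : Prop :=
  ∃ T, 0 < T ∧ T ≤ T₀ ∧ ∃ u : ℝ → V → V, u 0 = v ∧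
    (∀ t ∈ Ico 0 T, ∀ x, ρ < ‖x - z‖ → u t x = 0) ∧
    (∃ C, ∀ t ∈ Ico 0 T, ∀ x, ‖u t x‖ * ‖x - z‖ ^ (1 + δ) ≤ C) ∧
    Tendsto (fun t => ∫ x, ‖u t x‖ ^ 3) (𝓝[<] T) atTop ∧
    (∀ M, ∀ᶠ t in 𝓝[<] T, ∃ x, M < ‖u t x‖) ∧
    (∀ M, ∀ᶠ t in 𝓝[<] T, ∃ x : V, M < |x 0 * u t x 1 - x 1 * u t x 0|) ∧
    ∀ W : Submodule ℝ (V → V), IsSpG p g W → IsProj W ν T u ∧
      ∀ (T' : ℝ) (w : ℝ → V → V), IsProj W ν T' w → w 0 = v →
        T' ≤ T ∧ ∀ t ∈ Ico 0 T', w t = u t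

theorem BloA.mono {δ ρ : ℝ} {z : V} {p : ℕ → V → V} {g : ℕ → Fin 3 → V → V} {ν : ℝ} {v : V → V}
    {T₀ T₁ : ℝ} (h : BloA δ z ρ p g ν v T₀) (hT : T₀ ≤ T₁) : BloA δ z ρ p g ν v T₁ := by
  obtain ⟨T, h1, h2, h3⟩ := h
  exact ⟨T, h1, h2.trans hT, h3⟩

/-- Translation of the blow-up along the axis. -/
theorem BloA.tl {δ ρ ν T₀ : ℝ} {z : V} {ζ : ℝ} (hz : z = ζ • ez) {p : ℕ → V → V}
    {g : ℕ → Fin 3 → V → V} {v : V → V} (h : BloA δ 0 ρ p g ν v T₀) :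
    BloA δ z ρ (fun n => Tl z (p n)) (fun n i => Tl z (g n i)) ν (Tl z v) T₀ := by
  obtain ⟨T, hT, hTA, u, k1, k2, ⟨C, k3⟩, k4, k5, k5', k6⟩ := h
  refine ⟨T, hT, hTA, fun t => Tl z (u t), ?_, fun t ht x hx => ?_, ⟨C, ?_⟩, ?_,
    fun M => ?_, fun M => ?_, fun W hW => ?_⟩
  · show Tl z (u 0) = Tl z v
    rw [k1]
  · apply k2 t ht
    rw [sub_zero]
    exact hx
  · intro t ht x
    have := k3 t ht (x - z)
    rw [sub_zero] at this
    exact this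
  · refine k4.congr fun t => ?_
    exact (int_Tl z (fun x => ‖u t x‖ ^ 3)).symm
  · filter_upwards [k5 M] with t ht
    obtain ⟨x, hx⟩ := ht
    refine ⟨x + z, ?_⟩
    show M < ‖u t (x + z - z)‖
    rw [add_sub_cancel_right]
    exact hx
  · filter_upwards [k5' M] with t ht
    obtain ⟨x, hx⟩ := ht
    refine ⟨x + z, ?_⟩
    show M < |(x + z) 0 * u t (x + z - z) 1 - (x + z) 1 * u t (x + z - z) 0|
    have e0 : (x + z) 0 = x 0 := by
      rw [hz]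
      simp only [Pi.add_apply, Pi.smul_apply, smul_eq_mul]
      rw [ez_zero, mul_zero, add_zero]
    have e1 : (x + z) 1 = x 1 := by
      rw [hz]
      simp only [Pi.add_apply, Pi.smul_apply, smul_eq_mul]
      rw [ez_one, mul_zero, add_zero]
    rw [add_sub_cancel_right, e0, e1]
    exact hx
  · obtain ⟨k7, k8⟩ := k6 _ (IsSpG.tl hW)
    refine ⟨IsProj.tl k7, fun T' w hw h0 => ?_⟩
    obtain ⟨k9, k10⟩ := k8 T' _ (IsProj.tl' hw) (by
      show Tl (-z) (w 0) = v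
      rw [h0, Tl_inv'])
    refine ⟨k9, fun t ht => ?_⟩
    show w t = Tl z (u t)
    rw [← k10 t ht, Tl_inv]

section

variable {U T : V → V} {l R1 : ℝ}

/-- The assembly with explicit modes and constraint fields. -/
theorem mainQA {q s0 R L0 DT : ℝ} {h : Pre 4 q s0 R} (k0 : Lnk U T l R1 h L0 DT 0 1)
    (hlR : l ≤ R1)
    (δ : ℝ) (hδ : 0 ≤ 1 + δ) (h16 : 16 ≤ R ^ (2 * (1 + δ) - q * (4 * q - 2)))
    (hs1 : 17 / 4 / s0 ^ 2 ≤ (2 : ℝ) ^ (-(q ^ 2))) (hR2 : (2 : ℝ) ^ (q ^ 3) ≤ R ^ 2) :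
    Fam q 0 U (fun n => h.sc.Q U T (n + 1)) (G3 (h.sc.Q U T)) ∧
      ∀ ν ≥ 0, ∀ a > 0,
        200 * kapG (h.sc.Q U T) 1 * (Dir U U / ip U U * L0) * ν ≤ a →
        200 * kapG (h.sc.Q U T) 1 * (s0 ^ 4 * (DT + Dup) / β0) * ν ≤ a →
        BloA δ 0 R1 (fun n => h.sc.Q U T (n + 1)) (G3 (h.sc.Q U T)) ν (fun x => a • U x)
          (9 * L0 * kapG (h.sc.Q U T) 1 / a) := by
  have hR := h.R_pos
  have hβ := β0_pos
  have hD := Dup_nonneg h.sc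
  have hs0 := h.s0_pos
  have hL := k0.hL
  have hch := Sc.chnQ k0.hd k0.hl
  have hG : ∀ n i, L2F (G3 (h.sc.Q U T) n i) := fun n i => (ChN.G3_CF hch n i).l2
  have hsb : ∀ {n k : ℕ}, n ≤ k → Sb ((2 : ℝ) ^ (-(q ^ n))) (h.sc.P k) :=
    fun hk => h.sb hs1 hR2 hk
  have hUU := k0.hd.n0
  have hDU := Dir_nonneg' U
  have hDT := k0.DT0
  set κ := kapG (h.sc.Q U T) 1 with hκdef
  have hκ : 0 < κ := k0.kap1_pos
  refine ⟨⟨rfl, fun n => ?_, fun m n hmn => ?_,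
    fun n i => ?_, fun n i => ?_,
    ⟨WmaxG (G3 (h.sc.Q U T)) hG, ChN.WmaxG_isSp hch hG, fun w => Iff.rfl⟩⟩, ?_⟩
  · exact ⟨(hch.cf _).sm, (hch.cf _).cs, hch.dv _, hch.N0 n⟩
  · exact hch.orth (by omega)
  · exact ⟨(ChN.G3_CF hch n i).sm, (ChN.G3_CF hch n i).cs, nhds0_of_aw (ChN.G3_aw hch n i)⟩
  · have : Sb ((2 : ℝ) ^ (-(q ^ (n + 2)))) (G3 h.sc.P (n + 2) i) := by
      fin_cases i
      · exact sb_A (hsb le_rfl) (hsb (by omega)) (hsb (by omega))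
      · exact sb_B (hsb (by omega)) (hsb (by omega))
      · exact sb_C (hsb (by omega))
    intro x hx
    rw [sub_zero]
    exact this x hx
  intro ν hν a ha hc1 hc2
  have hL0 : 0 < L0 := by linarith
  have ha0 : 0 < a / κ := by positivity
  have c4 : 200 * (ν * Dir U U / ip U U) * L0 ≤ a / κ := by
    rw [le_div_iff₀ hκ]
    refine le_trans (le_of_eq ?_) hc1
    ring
  have c5 : 200 * (ν * (h.sc.σ 0 ^ 4 * (DT + Dup)) / β0) ≤ a / κ := by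
    rw [le_div_iff₀ hκ]
    refine le_trans (le_of_eq ?_) hc2
    rw [h.sc.σ_zero]
    show 200 * (ν * (s0 ^ 4 * (DT + Dup)) / β0) * κ = _
    ring
  have c6 : ∀ k, 200 * (ν * (h.sc.σ (k + 1) ^ 4 * Dup) / β0)
      ≤ a / κ * ∏ i ∈ Finset.range (k + 1), rh R q i ^ (4 : ℝ) := by
    intro k
    have hpow : ∀ x : ℝ, x ^ (4 : ℝ) = x ^ (4 : ℕ) := fun x => by norm_cast
    have e1 : ∏ i ∈ Finset.range (k + 1), rh R q i ^ (4 : ℝ)
        = (∏ i ∈ Finset.range (k + 1), rh R q i) ^ 4 := by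
      rw [← Finset.prod_pow]
      apply Finset.prod_congr rfl
      intro i _
      exact hpow _
    have e2 : 200 * (ν * (h.sc.σ (k + 1) ^ 4 * Dup) / β0)
        = 200 * (ν * (Dup * s0 ^ 4 / β0)) * (∏ i ∈ Finset.range (k + 1), rh R q i) ^ 4 := by
      rw [h.σ_eq, mul_pow]
      ring
    have e3 : 200 * (ν * (Dup * s0 ^ 4 / β0)) ≤ a / κ := by
      rw [le_div_iff₀ hκ]
      refine le_trans ?_ hc2
      have e4 : 200 * (ν * (Dup * s0 ^ 4 / β0)) * κ = 200 * κ * (s0 ^ 4 * Dup / β0) * ν := by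
        ring
      rw [e4]
      apply mul_le_mul_of_nonneg_right _ hν
      apply mul_le_mul_of_nonneg_left _ (by positivity)
      apply div_le_div_of_nonneg_right _ hβ.le
      apply mul_le_mul_of_nonneg_left _ (by positivity)
      linarith
    rw [e1, e2]
    exact mul_le_mul_of_nonneg_right e3 (by positivity)
  have k := k0.change hν ha0 c4 c5 c6
  have hg := Sc.goodQ (c := h.sc) (h.sc.wgt h.stp) k.hd k.hl
  obtain ⟨Tb, A, S⟩ := exists_sol k.par k.e0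
  have hinit : ∀ x, vel (h.sc.Q U T) (cofG (h.sc.Q U T) A) 0 x = a • U x := by
    intro x
    rw [velG_init S x]
    show (κ * (a / κ)) • U x = a • U x
    congr 1
    field_simp
  have hq4 : 4 ≤ 4 * q := by linarith [h.hγ]
  have hcub := k.cubic hq4 S
  have hsp : ∀ t ∈ Ico 0 Tb, ∀ x : V, R1 < ‖x‖ →
      vel (h.sc.Q U T) (cofG (h.sc.Q U T) A) t x = 0 := fun t ht x hx =>
    mem_ball (Sc.Q_ball k.hd k.hl hlR) (hg.mem k.pw S ht) hx
  have hsup := sup_of_cubic S.Tpos hsp hcub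
  refine ⟨Tb, S.Tpos, ?_, vel (h.sc.Q U T) (cofG (h.sc.Q U T) A), funext hinit,
    fun t ht x hx => hsp t ht x (by rwa [sub_zero] at hx), ?_, hcub, hsup, circ_lim k hq4 S,
    fun W hW => ⟨hg.isProj k.fit k.pw S hW, fun T' w hw' h0 => ?_⟩⟩
  · refine S.Tle.trans ?_
    show 9 * L0 / (a / κ) ≤ 9 * L0 * κ / a
    apply le_of_eq
    field_simp
  · simp only [sub_zero]
    exact k.vel_bd S hδ h16
  · exact hg.max k.fit k.pw S hν hW hsup hw' fun x => by rw [h0, hinit]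

end

end Pool.Agent.Run7.h407.G.X.H980
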