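import Mathlib
import Pool.Agent.Run7.h407.LL.Brg
import Pool.Agent.Run7.h980.AX.Defs
import Pool.Agent.Run7.h980.AX.Main

/-!
The axisymmetric blow-up theorem in terms of the definitions of AX/Defs.
-/

namespace Pool.Agent.Run7.h980.AX

open Set Filter Topology MeasureTheory Run7.h407.LL
open scoped ContDiff

open Pool.Agent.Run7.h407.G.X Pool.Agent.Run7.h407.G.X.H980 in
theorem space_axi {P : ℕ → E3 → E3} {G : ℕ → Fin 3 → E3 → E3} {k : ℕ} {z : E3} {U : E3 → E3}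
    {p : ℕ → E3 → E3} {g : ℕ → Fin 3 → E3 → E3} (hx : AxF p g) (h : IsFamily P G k z U p g) :
    IsSpace p g {w | IsSolenoidal w ∧ Constrained g w ∧ IsAxisymmetric w} := by
  refine ⟨fun v hv w hw a b => ?_, fun w hw => ⟨hw.1, hw.2.1⟩, fun v hv hc => ?_⟩
  · have h1 := h.largest.linear v ⟨hv.1, hv.2.1⟩ w ⟨hw.1, hw.2.1⟩ a b
    exact ⟨h1.1, h1.2, Axi.add (Axi.smul (u := v) hv.2.2 a) (Axi.smul (u := w) hw.2.2 b)⟩
  · have h1 := h.largest.lower v hv hc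
    obtain ⟨c, hc⟩ := hc
    exact ⟨h1.1, h1.2, mem_Axi (c := c) hx.1 fun x => Pi.hasSum.2 (hc x)⟩

open Pool.Agent.Run7.h407.G.X Pool.Agent.Run7.h407.G.X.H980 in
theorem family_axi {q : ℝ} {P : ℕ → E3 → E3} {G : ℕ → Fin 3 → E3 → E3} {k : ℕ} {z : E3}
    {U : E3 → E3} {p : ℕ → E3 → E3} {g : ℕ → Fin 3 → E3 → E3}
    (h : Fam q z U p g) (hx : AxF p g) (ht : Tail P G k z p g) : IsAxiFamily P G k z U p g :=
  ⟨family_of h ht, hx, space_axi hx (family_of h ht)⟩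

/-- The bound of the circulation which follows from the bound of the velocity. -/
theorem circ_le {v x y : E3} {C δ : ℝ} (hδ : 0 ≤ δ) (h0 : y 0 = x 0) (h1 : y 1 = x 1)
    (h : ‖v‖ * ‖y‖ ^ (1 + δ) ≤ C) : |circulation v x| * axisDist x ^ δ ≤ 2 * C := by
  unfold axisDist
  set m := max |x 0| |x 1| with hm
  have hm0 : 0 ≤ m := (abs_nonneg _).trans (le_max_left _ _)
  have hmx : m ≤ ‖y‖ := by
    apply max_le
    · rw [← h0, ← Real.norm_eq_abs]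
      exact norm_le_pi_norm y 0
    · rw [← h1, ← Real.norm_eq_abs]
      exact norm_le_pi_norm y 1
  have h1 : |circulation v x| ≤ 2 * (m * ‖v‖) := by
    have a0 : |v 0| ≤ ‖v‖ := by
      rw [← Real.norm_eq_abs]
      exact norm_le_pi_norm v 0
    have a1 : |v 1| ≤ ‖v‖ := by
      rw [← Real.norm_eq_abs]
      exact norm_le_pi_norm v 1
    calc |circulation v x| ≤ |x 0 * v 1| + |x 1 * v 0| := abs_sub _ _
      _ = |x 0| * |v 1| + |x 1| * |v 0| := by rw [abs_mul, abs_mul]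
      _ ≤ m * ‖v‖ + m * ‖v‖ := add_le_add
          (mul_le_mul (le_max_left _ _) a1 (abs_nonneg _) hm0)
          (mul_le_mul (le_max_right _ _) a0 (abs_nonneg _) hm0)
      _ = _ := by ring
  have hmδ : 0 ≤ m ^ δ := Real.rpow_nonneg hm0 _
  have h2 : m * m ^ δ ≤ ‖y‖ ^ (1 + δ) := by
    rcases hm0.eq_or_lt with h0 | h0
    · rw [← h0, zero_mul]
      positivity
    · have : m * m ^ δ = m ^ (1 + δ) := by
        rw [Real.rpow_add h0, Real.rpow_one]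
      rw [this]
      exact Real.rpow_le_rpow hm0 hmx (by linarith)
  calc |circulation v x| * m ^ δ ≤ 2 * (m * ‖v‖) * m ^ δ := mul_le_mul_of_nonneg_right h1 hmδ
    _ = 2 * (‖v‖ * (m * m ^ δ)) := by ring
    _ ≤ 2 * (‖v‖ * ‖y‖ ^ (1 + δ)) := by
        have := mul_le_mul_of_nonneg_left h2 (norm_nonneg v)
        linarith
    _ ≤ 2 * C := by linarith

open Pool.Agent.Run7.h407 Pool.Agent.Run7.h407.G.X Pool.Agent.Run7.h407.G.X.H980 in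
theorem blowsUp_axi {q ρ ν T₀ : ℝ} (hq : 1 < q) (hν : 0 ≤ ν) {z : E3} (hz : OnAxis z)
    {p : ℕ → E3 → E3} {g : ℕ → Fin 3 → E3 → E3} {v : E3 → E3}
    (hf : IsSpace p g {w | IsSolenoidal w ∧ Constrained g w ∧ IsAxisymmetric w})
    (h : BloA (4 * (q - 1)) z ρ p g ν v T₀) : BlowsUpAxi q z p g ν v T₀ := by
  obtain ⟨T, hT, hTA, u, k1, k2, ⟨C, k3⟩, k4, k5, k5', k6⟩ := h
  have hC : 0 ≤ C := le_trans (by positivity) (k3 0 ⟨le_rfl, hT⟩ 0)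
  refine ⟨T, hT, hTA, u, k1, fun t ht => ?_, ⟨ρ, k2⟩, ⟨2 * C, fun t ht x => ⟨?_, ?_⟩⟩, k4, k5,
    k5', fun W hW => ?_⟩
  · have h1 : u t ∈ {w | IsSolenoidal w ∧ Constrained g w ∧ IsAxisymmetric w} :=
      (k6 hf.sub hf.spg).1.mem t ht
    exact h1.2.2
  · have := k3 t ht x
    rw [show 1 + 4 * (q - 1) = 4 * q - 3 by ring] at this
    show ‖u t x‖ * ‖x - z‖ ^ (4 * q - 3) ≤ 2 * C
    linarith
  · apply circ_le (y := x - z) (by linarith) _ _ (k3 t ht x)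
    · rw [Pi.sub_apply, hz.1, sub_zero]
    · rw [Pi.sub_apply, hz.2, sub_zero]
  have hs := hW.spg
  obtain ⟨k7, k8⟩ := k6 hW.sub hs
  refine ⟨(proj_iff hW).2 k7, fun T' w hw h0 => k8 T' w ((proj_iff hW).1 hw) h0,
    fun T' w hw h0 => ?_⟩
  have hu : TF T (ρ + ‖z‖) u := by
    refine ⟨k7.cls.sm, fun t ht x hx => k2 t ht x ?_⟩
    have := norm_sub_norm_le x z
    linarith
  apply LH.lh_unique hν hu hs.l2 hs.wdf k7.mem k7.eqn ((lerayHopf_iff hW).1 hw)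
  filter_upwards [h0] with x hx
  rw [hx, k1]

theorem axis_eq {z : E3} (hz : OnAxis z) : z = z 2 • Run7.h407.G.X.ez := by
  apply Run7.h407.G.X.ext3
  · rw [Pi.smul_apply, Run7.h407.G.X.H980.ez_zero, hz.1, smul_zero]
  · rw [Pi.smul_apply, Run7.h407.G.X.H980.ez_one, hz.2, smul_zero]
  · rw [Pi.smul_apply, Run7.h407.G.X.ez_two, smul_eq_mul, mul_one]

theorem main_axi (q : ℝ) (hq : 1 < q) (hq' : q < 5 / 4) :
    ∃ (P : ℕ → E3 → E3) (G : ℕ → Fin 3 → E3 → E3), IsUniversal q P G ∧ AllAxisymmetric P G ∧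
    (∀ (U : E3 → E3) (z : E3), IsTestField U → IsAxisymmetric U → OnAxis z →
      (¬ IsSteady U → VanishesNear z U → ∃ k₀ : ℕ, ∀ k ≥ k₀,
        ∃ (p : ℕ → E3 → E3) (g : ℕ → Fin 3 → E3 → E3), IsAxiFamily P G k z U p g ∧
        ∃ A₀ > 0, ∀ ν ≥ 0, ∀ a > 0, A₀ * ν ≤ a → BlowsUpAxi q z p g ν (scale a U) (A₀ / a)) ∧
      (∀ r ε N : ℝ, 0 < r → r < 3 → q ≤ 1 + (3 - r) / 8 → 0 < ε → ∃ k₀ : ℕ, ∀ k ≥ k₀,
        ∃ F : E3 → E3, IsTestField F ∧ IsAxisymmetric F ∧ InBall z ε F ∧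
        total (fun x => mag (F x) ^ r) ≤ ε ∧
        ∃ (p : ℕ → E3 → E3) (g : ℕ → Fin 3 → E3 → E3), IsAxiFamily P G k z (plus U F) p g ∧
          ∀ ν, 0 ≤ ν → ν ≤ N → BlowsUpAxi q z p g ν (plus U F) ε)) ∧
    (∀ (p : ℕ → E3 → E3) (g : ℕ → Fin 3 → E3 → E3) (W : Set (E3 → E3)),
      IsSpace p g W → ∀ (ν T : ℝ) (w : ℝ → E3 → E3), IsProjected W ν T w →
        IsLerayHopf W ν T w ∧ ∀ t ∈ Ico 0 T, (∀ x, divergence (w t) x = 0) ∧
          innerL2 (w t) (w t) + 2 * ν * ∫ s in (0 : ℝ)..t, dirichlet (w s) (w s)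
            = innerL2 (w 0) (w 0)) := by
  obtain ⟨X, M⟩ := Run7.h407.G.X.exists_mst hq hq'
  have hδ : 0 ≤ 1 + 4 * (q - 1) := by linarith
  have hη : 0 < 2 * (1 + 4 * (q - 1)) - q * (4 * q - 2) := by nlinarith
  refine ⟨_, _, universal_of M.uf, ⟨fun m => M.pre.sc.P_Axi (m + 1), M.pre.sc.G3_Axi⟩,
    fun U z hU hUa hz => ⟨fun hUs hzU => ?_, fun r ε N hr hr3 hqr hε => ?_⟩,
    fun p g W hW ν T w hw => ⟨?_, fun t ht => ?_⟩⟩
  · obtain ⟨k₀, hk₀⟩ := Run7.h407.G.X.H980.mainAA M hq' hδ hη ⟨hU.1.1, hU.1.2⟩ hU.2 hUa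
      (om_of_not_steady hUs) (axis_eq hz) (vanishes_iff.1 hzU)
    refine ⟨k₀, fun k hk => ?_⟩
    obtain ⟨p, g, _, h1, h1', h2, A₀, hA, H⟩ := hk₀ k hk
    have hf := family_axi h1 h1' h2
    exact ⟨p, g, hf, A₀, hA, fun ν hν a ha haν =>
      blowsUp_axi hq hν hz hf.largest (H ν hν a ha haν)⟩
  · obtain ⟨k₀, hk₀⟩ := Run7.h407.G.X.H980.mainBzA M hq' hδ hη ⟨hU.1.1, hU.1.2⟩ hU.2 hUa
      (axis_eq hz) (N := N) hr hr3 hqr hε
    refine ⟨k₀, fun k hk => ?_⟩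
    obtain ⟨F, h1, h2, h2', h3, h4, p, g, _, h5, h5', h6, h7⟩ := hk₀ k hk
    have hf := family_axi h5 h5' h6
    exact ⟨F, ⟨⟨h1.sm, h1.cs⟩, h2⟩, h2', inBall_iff.2 h3, h4, p, g, hf,
      fun ν h8 h9 => blowsUp_axi hq h8 hz hf.largest (h7 ν h8 h9)⟩
  · exact (lerayHopf_iff hW).2 (Run7.h407.LH.lh_of_proj ((proj_iff hW).1 hw) hW.spg.wdf)
  · exact ⟨Run7.h407.G.IsProj.dvgG hW.spg ((proj_iff hW).1 hw) ht,
      Run7.h407.G.IsProj.energyG hW.spg ((proj_iff hW).1 hw) ht⟩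

end Pool.Agent.Run7.h980.AX
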